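import Pool.Agent.H89.KT.Triv

/-!
# The base case, and prime power exponents
-/

set_option autoImplicit false
set_option linter.all false

open Polynomial IsDedekindDomain WithZero
open scoped Classical

namespace Pool.Agent.H89.KT

open Pool.Agent.Q45.TW (cst ff ff_monic ff_natDegree ff_map)
open Pool.Agent.Y160.SE (IsPw)
open Pool.Agent.Q45.TT (FS inertia_le exists_ic exists_alg exists_above tf_of inert_of dvd_inertia
  RamK Ram exists_irr val_under exists_sub irr_base sep_ff ff_alg ring_base)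

/-- Elements with valuations divisible by `p` in the field of fractions of a polynomial ring. -/
theorem pw_rat {p : ℕ} (hp : p ≠ 0) {k R L : Type} [Field k] [CommRing R] [IsDedekindDomain R]
    [Field L] [Algebra R L]
    [IsFractionRing R L] (e : k[X] ≃+* R) {z : L} (hz : z ≠ 0)
    (hev : ∀ v : HeightOneSpectrum R, IsPw p (v.valuation L z)) :
    ∃ (c : k) (w : L), c ≠ 0 ∧ w ≠ 0 ∧ z = algebraMap R L (e (C c)) * w ^ p := by
  haveI : IsPrincipalIdealRing R := IsPrincipalIdealRing.of_surjective e.toRingHom e.surjective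
  obtain ⟨a, b, hb, rfl⟩ := IsFractionRing.div_surjective (A := R) z
  have hb0 : b ≠ 0 := nonZeroDivisors.ne_zero hb
  have ha0 : a ≠ 0 := by
    rintro rfl
    rw [map_zero, zero_div] at hz
    exact hz rfl
  have hbL : algebraMap R L b ≠ 0 := fun h =>
    hb0 (IsFractionRing.injective R L (by rw [h, map_zero]))
  obtain ⟨q, hq⟩ : ∃ q, p = q + 1 := Nat.exists_eq_succ_of_ne_zero hp
  have he : algebraMap R L (a * b ^ q) =
      algebraMap R L a / algebraMap R L b * algebraMap R L b ^ p := by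
    rw [map_mul, map_pow, hq, pow_succ]
    field_simp
  have hab : a * b ^ q ≠ 0 := mul_ne_zero ha0 (pow_ne_zero _ hb0)
  obtain ⟨J, hJ⟩ := ideal_pw hp hab fun v => by
    have h1 : v.valuation L (algebraMap R L (a * b ^ q)) = v.intValuation (a * b ^ q) :=
      v.valuation_of_algebraMap _
    rw [← h1, he, map_mul, map_pow]
    exact (hev v).mul (IsPw.self _)
  obtain ⟨j, hj⟩ := (IsPrincipalIdealRing.principal J).principal
  have hj' : J = Ideal.span {j} := hj
  rw [hj', Ideal.span_singleton_pow, Ideal.span_singleton_eq_span_singleton] at hJ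
  obtain ⟨ε, hε⟩ := hJ.symm
  obtain ⟨c, hc, hc1⟩ := Polynomial.isUnit_iff.1 (ε.isUnit.map e.symm)
  have hj0 : j ≠ 0 := by
    rintro rfl
    rw [zero_pow hp, zero_mul] at hε
    exact hab hε.symm
  refine ⟨c, algebraMap R L j / algebraMap R L b, hc.ne_zero, div_ne_zero (fun h => hj0
    (IsFractionRing.injective R L (by rw [h, map_zero]))) hbL, ?_⟩
  have h3 : e (C c) = (ε : R) := by
    rw [hc1]
    exact e.apply_symm_apply _
  rw [h3, div_pow]
  rw [← hε, map_mul, map_pow] at he
  have hbp := pow_ne_zero p hbL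
  rw [mul_div_assoc', eq_div_iff hbp, ← he, mul_comm]

section base

variable {k : Type} [Field k] {g : k[X]} {p : ℕ}

/-- The base case. -/
theorem Triv.base (hp : p.Prime) (hg : Deg p g) {K : Type} [Field K] [Algebra k[X] K]
    (hK : IsFractionRing k[X] K) : Triv p g K := by
  intro L _ _ _ _ θ hθ htop R _ _ _ _ _ _ _ z hz hev hno
  have hg0 := hg.pos
  have hirr : Irreducible (ff g K) := irr_base hg.monic hg0 hK
  haveI : FiniteDimensional K L := Pool.Agent.Q45.TW.fin_of (ff_monic hg.monic hg0) hθ htop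
  obtain ⟨e, he1⟩ := ring_base hg.monic hg0 hK hθ htop R
  obtain ⟨c, w, hc, hw, rfl⟩ := pw_rat hp.ne_zero e hz hev
  obtain ⟨u, hu⟩ := hno
  have h1 : algebraMap R L (e (C c)) = algebraMap K L (algebraMap k[X] K (C c)) := by
    rw [he1, ← IsScalarTower.algebraMap_apply k[X] R L, ← IsScalarTower.algebraMap_apply k[X] K L]
  have hcK : algebraMap k[X] K (C c) ≠ 0 := by
    intro h0
    rw [h0, map_zero] at h1
    rw [h1, zero_mul] at hz
    exact hz rfl
  have h3 : Module.finrank K L = g.natDegree := by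
    rw [Pool.Agent.Q45.TW.finrank_of hirr (ff_monic hg.monic hg0) hθ htop,
      ff_natDegree hg.monic hg0]
  rw [h1, map_mul, Algebra.norm_algebraMap, h3, map_pow] at hu
  set κ := algebraMap k[X] K (C c) with hκ
  have hNw : Algebra.norm K w ≠ 0 := (Algebra.norm_ne_zero_iff).2 hw
  have hu0 : u ≠ 0 := by
    rintro rfl
    rw [zero_pow hp.ne_zero] at hu
    exact mul_ne_zero (pow_ne_zero _ hcK) (pow_ne_zero _ hNw) hu
  -- `κ ^ n` is a `p`-th power
  have h5 : κ ^ g.natDegree = (u / Algebra.norm K w) ^ p := by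
    rw [div_pow, ← hu]
    have := pow_ne_zero p hNw
    field_simp
  have hb := Nat.gcd_eq_gcd_ab p g.natDegree
  rw [hg.cop] at hb
  have h4 : κ = (κ ^ (Nat.gcdA p g.natDegree) *
      (u / Algebra.norm K w) ^ (Nat.gcdB p g.natDegree)) ^ p := by
    calc κ = κ ^ ((p : ℤ) * Nat.gcdA p g.natDegree + (g.natDegree : ℤ) * Nat.gcdB p g.natDegree) := by
          rw [← hb]; simp
      _ = _ := by
          rw [zpow_add₀ hcK, zpow_mul κ (g.natDegree : ℤ), zpow_natCast κ g.natDegree, h5, mul_pow,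
            ← zpow_natCast (κ ^ _) p, ← zpow_natCast ((u / Algebra.norm K w) ^ Nat.gcdB p g.natDegree) p,
            ← zpow_mul, ← zpow_mul, ← zpow_natCast (u / Algebra.norm K w) p, ← zpow_mul,
            mul_comm (p : ℤ), mul_comm (p : ℤ)]
  refine ⟨algebraMap K L (κ ^ (Nat.gcdA p g.natDegree) *
      (u / Algebra.norm K w) ^ (Nat.gcdB p g.natDegree)) * w, ?_⟩
  rw [h1, mul_pow, ← map_pow, ← h4]

/-- **Elements with valuations divisible by `p` and a norm which is a `p`-th power are `p`-th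
powers.** -/
theorem IsTower.triv (H : Base p k) (hg : Deg p g)
    (hd : derivative g ≠ 0) {K : Type} [Field K] [Algebra k[X] K] {m : ℕ} {s : ℕ → K}
    (h : IsTower p k K m s) (hram : RamK g K) : Triv p g K := by
  refine IsTower.ind H (M := fun K _ _ => RamK g K → Triv p g K)
    (fun K _ _ hK _ => Triv.base H.prime hg hK) ?_ m K s h hram
  intro K' K _ _ _ _ _ _ D s hq _ htw ih hram
  obtain ⟨m', s', htw⟩ := htw
  have hfs' : FS k K' := htw.fs H
  exact Triv.step H hg hd hq htw hram (ih (hram.down hfs' (hfs'.trans hq.fin hq.separable)))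

/-- Divisibility of valuations by prime powers. -/
theorem pw_root {p n : ℕ} (hp : p ≠ 0) {γ : WithZero (Multiplicative ℤ)}
    (h : IsPw (p ^ (n + 1)) (γ ^ p)) : IsPw (p ^ n) γ := by
  obtain ⟨δ, hδ⟩ := h
  refine ⟨δ, ?_⟩
  rw [pow_succ, pow_mul] at hδ
  exact (pow_left_inj₀ zero_le zero_le hp).1 hδ

/-- Prime power exponents. -/
theorem Triv.pow (hp : p.Prime) {K : Type} [Field K] [Algebra k[X] K] (h : Triv p g K)
    (hg : Deg p g) (hirr : Irreducible (ff g K)) :
    ∀ (m : ℕ) (ζ : K), IsPrimitiveRoot ζ (p ^ m) → Triv (p ^ m) g K := by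
  intro m
  induction m with
  | zero =>
    intro ζ hζ L _ _ _ _ θ hθ htop R _ _ _ _ _ _ _ z hz hev hno
    exact ⟨z, by rw [pow_zero, pow_one]⟩
  | succ m ih =>
    intro ζ hζ L _ _ _ _ θ hθ htop R _ _ _ _ _ _ _ z hz hev hno
    haveI : FiniteDimensional K L := Pool.Agent.Q45.TW.fin_of (ff_monic hg.monic hg.pos) hθ htop
    obtain ⟨u, hu⟩ := hno
    have hpp : p ^ (m + 1) = p * p ^ m := pow_succ' p m
    obtain ⟨w, hw⟩ := h L θ hθ htop R z hz (fun v => by
      obtain ⟨δ, hδ⟩ := hev v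
      exact ⟨δ ^ p ^ m, by rw [hδ, ← pow_mul, mul_comm, ← hpp]⟩) ⟨u ^ p ^ m, by
        rw [hu, ← pow_mul, mul_comm, ← hpp]⟩
    have hw0 : w ≠ 0 := by
      rintro rfl
      rw [zero_pow hp.ne_zero] at hw
      exact hz hw
    have hu0 : u ≠ 0 := by
      rintro rfl
      rw [zero_pow (pow_ne_zero _ hp.ne_zero)] at hu
      exact (Algebra.norm_ne_zero_iff).2 hz hu
    have hζp : IsPrimitiveRoot (ζ ^ p ^ m) p :=
      hζ.pow (pow_pos hp.pos _) (by rw [pow_succ])
    have h1 : (Algebra.norm K w) ^ p = (u ^ p ^ m) ^ p := by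
      rw [← map_pow, ← hw, hu, ← pow_mul, pow_succ]
    obtain ⟨i, hi⟩ := root_of hp hζp (pow_ne_zero _ hu0) h1
    obtain ⟨c, hc⟩ := ih (ζ ^ p) (hζ.pow (pow_pos hp.pos _) (by rw [hpp])) L θ hθ htop R w hw0
      (fun v => by
        refine pw_root hp.ne_zero ?_
        rw [← map_pow, ← hw]
        exact hev v) ⟨ζ ^ i * u, by rw [hi]; ring⟩
    exact ⟨c, by rw [hw, hc, ← pow_mul, mul_comm, ← hpp]⟩

end base

end Pool.Agent.H89.KT
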