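import Pool.Agent.H89.KT.Dv
import Pool.Graph.R_pool_sql_team_seeded_3997aac3.Q45.TT.Main

/-!
# The Tate-Shafarevich group over towers of Kummer extensions
-/

set_option autoImplicit false
set_option linter.all false

open Polynomial IsDedekindDomain WithZero
open scoped Classical

namespace Pool.Agent.H89.KT

open Pool.Agent.Q45.TW (cst ff ff_monic ff_natDegree ff_map)
open Pool.Agent.Y160.SE (IsPw)
open Pool.Agent.Q45.GP (Regular TateOver)
open Pool.Agent.Y160.SQ
open Pool.Agent.Y160.RK (ptCl spanD gen_iter no_tor_base)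
open Pool.Agent.Q45.TT (FS RamK Ram sep_ff ff_alg HasDer regular_of_der exists_field tf_of)

section main

variable {k : Type} [Field k] {g : k[X]} {p : ℕ} {K : Type} [Field K] [Algebra k[X] K]

/-- The Tate-Shafarevich group and the generation, from the descent. -/
theorem sha_of (H : Base p k) (hg : Deg p g)
    (hd : derivative g ≠ 0) (hfs : FS k K) (hirr : Irreducible (ff g K)) {m : ℕ} (hm : m ≠ 0)
    {ζ : K} (hζ : IsPrimitiveRoot ζ (p ^ m)) {A : Type} [CommRing A]
    [IsDedekindDomain A] [Algebra A K] [IsFractionRing A K] [Algebra k[X] A]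
    [IsScalarTower k[X] A K] [IsIntegralClosure A k[X] K] (hS : Regular K (ff g A))
    (PP : Set (K[X] × K[X]))
    (hPP : ∀ P ∈ PP, Irreducible P.1 ∧ P.1.Monic ∧ ¬ P.1 ∣ ff g K ∧ P.1 ∣ ff g K - P.2 ^ (p ^ m))
    (hpts : ∀ (L : Type) [Field L] [Algebra k[X] L] [Algebra K L] [IsScalarTower k[X] K L] (θ : L),
      aeval θ (ff g K) = 0 → IntermediateField.adjoin K {θ} = ⊤ →
      ∀ (R : Type) [CommRing R] [IsDedekindDomain R] [Algebra k[X] R] [Algebra R L]
        [IsScalarTower k[X] R L] [IsFractionRing R L] [IsIntegralClosure R k[X] L] (z : L),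
        z ≠ 0 → (∀ w : HeightOneSpectrum R, IsPw (p ^ m) (w.valuation L z)) →
        (∃ u : K, Algebra.norm K z = u ^ (p ^ m)) →
        ∃ (u : K) (w : L) (S : Multiset (K[X] × K[X])), u ≠ 0 ∧ w ≠ 0 ∧ (∀ P ∈ S, P ∈ PP) ∧
          z = algebraMap K L u * w ^ (p ^ m) * aeval θ (dvP S)) :
    ∃ hgd : Good (p ^ m) ζ (ff g K), Pool.Agent.Y160.SH.ShaTriv p (p ^ m) A (ff g K) ∧
      ∀ x : Jac (p ^ m) (ff g K) K, ∃ (T : Multiset (K[X] × K[X])) (v : Jac (p ^ m) (ff g K) K),
        (∀ P ∈ T, P ∈ PP) ∧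
        x = (T.map (ptCl (p ^ m) (ff g K))).sum + pe hgd K (1 - X) v := by
  obtain ⟨L, R, i1, i2, i3, i4, i5, i6, i7, i8, θ, i9, i10, i11, i12, hint, hcomp, hθ, htop, hfsL⟩ :=
    exists_field hg.monic hg.pos hirr hd hfs A
  have hgd : Good (p ^ m) ζ (ff g K) := by
    refine ⟨H.prime.isPrimePow.pow hm, hζ, ff_monic hg.monic hg.pos, sep_ff hirr hd, ?_⟩
    rw [ff_natDegree hg.monic hg.pos]
    exact hg.cop.pow_left m
  refine ⟨hgd, ?_⟩
  haveI := hint
  letI : Algebra A L := ((algebraMap K L).comp (algebraMap A K)).toAlgebra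
  haveI : IsScalarTower A K L := IsScalarTower.of_algebraMap_eq fun x => rfl
  haveI : IsScalarTower A R L := IsScalarTower.of_algebraMap_eq fun x => hcomp x
  haveI : Module.IsTorsionFree A R := by
    rw [Module.isTorsionFree_iff_algebraMap_injective]
    exact tf_of (K' := K) (K := L) (IsFractionRing.injective A K) fun a => (hcomp a).symm
  have hff : (ff g A).map (algebraMap A K) = ff g K :=
    ff_map _ fun p => (IsScalarTower.algebraMap_apply k[X] A K p).symm
  have key : ∀ (f1 : K[X]) (h : (ff g A).map (algebraMap A K) = f1) (hgd : Good (p ^ m) ζ f1),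
      Irreducible f1 → aeval θ f1 = 0 →
      (∀ P ∈ PP, Irreducible P.1 ∧ P.1.Monic ∧ ¬ P.1 ∣ f1 ∧ P.1 ∣ f1 - P.2 ^ (p ^ m)) →
      Pool.Agent.Y160.SH.ShaTriv p (p ^ m) A f1 ∧
      ∀ x : Jac (p ^ m) f1 K, ∃ (T : Multiset (K[X] × K[X])) (v : Jac (p ^ m) f1 K),
        (∀ P ∈ T, P ∈ PP) ∧ x = (T.map (ptCl (p ^ m) f1)).sum + pe hgd K (1 - X) v := by
    rintro f1 rfl hgd hirr hθ' hP
    exact Pool.Agent.Q45.GP.main (p := p) (m := m) (ℓ := p ^ m) (A := A) (K := K) (N := L) (R := R)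
      H.prime rfl (f := ff g A) (ζ := ζ) hgd (ff_monic hg.monic hg.pos)
      hS hirr (θ := θ) hθ' htop PP hP (fun z hz hev hno => hpts L θ hθ htop R z hz hev hno)
  exact key _ hff hgd hirr hθ hPP

variable {A : Type} [CommRing A] [IsDedekindDomain A] [Algebra A K] [IsFractionRing A K]
  [Algebra k[X] A] [IsScalarTower k[X] A K] [IsIntegralClosure A k[X] K]

/-- There is no `p`-torsion. -/
theorem no_tors {ℓ m : ℕ} {ζ : K} {f : K[X]} (hp : p.Prime) (hpm : ℓ = p ^ m)
    (hgd : Good ℓ ζ f) (hirr : Irreducible f) {x : Jac ℓ f K}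
    (hx : p • x = 0) : x = 0 := by
  obtain ⟨W, hW⟩ := exists_W' (p := p) (m := m) hgd hp hpm
  have h1 : pe hgd K ((1 - X) ^ ℓ) x = 0 := by
    rw [hW, ← map_nsmul, hx, map_zero]
  have key : ∀ (n : ℕ) (y : Jac ℓ f K), pe hgd K ((1 - X) ^ n) y = 0 → y = 0 := by
    intro n
    induction n with
    | zero =>
      intro y hy
      rwa [pow_zero, pe_one] at hy
    | succ n ih =>
      intro y hy
      rw [pow_succ, pe_mul] at hy
      have h3 := ih _ hy
      refine no_tor_base hyps hgd Pool.Agent.Y160.FT.inj_all hirr ?_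
      rw [pe_sub, pe_one, pe_X] at h3
      exact h3
  exact key ℓ x h1

/-- **The Tate-Shafarevich group over the tower.** -/
theorem sha_tower (H : Base p k) (hg : Deg p g)
    (hd : derivative g ≠ 0) {n : ℕ} {s : ℕ → K} (h : IsTower p k K n s) (hram : Ram g A)
    {m : ℕ} (hm : m ≠ 0) {ζ : K} (hζ : IsPrimitiveRoot ζ (p ^ m)) :
    Pool.Agent.Y160.SH.ShaTriv p (p ^ m) A (ff g K) ∧
      ∀ x : Jac (p ^ m) (ff g K) K, ∃! y, p • y = x := by
  have hfs : FS k K := h.fs H
  have hirr : Irreducible (ff g K) := h.irr H hg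
  have hreg : Regular K (ff g A) := regular_of_der (h.hasDer H) fun v b hb hbv => by
    refine ⟨b, ?_, (hram v b hb hbv).2⟩
    exact Ideal.pow_le_self two_ne_zero hbv
  have htriv : Triv (p ^ m) g K :=
    (h.triv H hg hd (RamK.of hfs hram)).pow H.prime hg hirr m ζ hζ
  obtain ⟨hgd, h1, h3⟩ := sha_of H hg hd hfs hirr hm hζ (A := A) hreg ∅ (fun P hP => absurd hP
    (Set.notMem_empty P)) (fun L _ _ _ _ θ hθ htop R _ _ _ _ _ _ _ z hz hev hno => by
      obtain ⟨c, hc⟩ := htriv L θ hθ htop R z hz hev hno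
      have hc0 : c ≠ 0 := by
        rintro rfl
        rw [zero_pow (pow_ne_zero _ H.prime.ne_zero)] at hc
        exact hz hc
      refine ⟨1, c, 0, one_ne_zero, hc0, fun P hP => absurd hP (Multiset.notMem_zero P), ?_⟩
      rw [hc, map_one, one_mul]
      have h5 : dvP (0 : Multiset (K[X] × K[X])) = 1 := rfl
      rw [h5, map_one, mul_one])
  refine ⟨h1, fun x => ?_⟩
  let D : Fin 0 → Jac (p ^ m) (ff g K) K := fun i => i.elim0
  obtain ⟨y, hy⟩ := gen_iter (p := p) (m := m) hyps hgd H.prime rfl D (fun x => by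
    obtain ⟨T, v, hT, hx⟩ := h3 x
    have hT0 : T = 0 := by
      rw [Multiset.eq_zero_iff_forall_notMem]
      exact fun P hP => Set.notMem_empty P (hT P hP)
    refine ⟨v, ?_⟩
    rw [hx, add_sub_cancel_right, hT0, Multiset.map_zero, Multiset.sum_zero]
    exact AddSubgroup.zero_mem _) 1 x
  have h5 : spanD hgd D = ⊥ := by
    unfold spanD
    rw [eq_bot_iff, AddSubgroup.closure_le]
    rintro _ ⟨⟨i, _⟩, rfl⟩
    exact i.elim0
  rw [h5, AddSubgroup.mem_bot, pow_one, sub_eq_zero] at hy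
  refine ⟨y, hy.symm, fun y' hy' => ?_⟩
  have h6 : p • (y' - y) = 0 := by
    rw [smul_sub, hy', ← hy, sub_self]
  exact sub_eq_zero.1 (no_tors H.prime rfl hgd hirr h6)

end main

end Pool.Agent.H89.KT
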