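import Pool.Agent.H89.KT.Cyc

/-!
# Elements with valuations divisible by `p` whose norm is a `p`-th power
-/

set_option autoImplicit false
set_option linter.all false

open Polynomial IsDedekindDomain WithZero
open scoped Classical

namespace Pool.Agent.H89.KT

open Pool.Agent.Q45.TW (cst ff ff_monic ff_natDegree ff_map)
open Pool.Agent.Y160.SE (IsPw)
open Pool.Agent.Q45.TT (FS inertia_le exists_ic exists_alg exists_above tf_of inert_of dvd_inertia
  RamK Ram exists_irr val_under exists_sub irr_base sep_ff ff_alg)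

/-- Elements of `K(θ)`, `g(θ) + t = 0`, with valuations divisible by `p` and with norm a `p`-th power
are `p`-th powers. -/
def Triv (p : ℕ) {k : Type} [Field k] (g : k[X]) (K : Type) [Field K] [Algebra k[X] K] : Prop :=
  ∀ (L : Type) [Field L] [Algebra k[X] L] [Algebra K L] [IsScalarTower k[X] K L] (θ : L),
    aeval θ (ff g K) = 0 → IntermediateField.adjoin K {θ} = ⊤ →
    ∀ (R : Type) [CommRing R] [IsDedekindDomain R] [Algebra k[X] R] [Algebra R L]
      [IsScalarTower k[X] R L] [IsFractionRing R L] [IsIntegralClosure R k[X] L] (z : L),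
      z ≠ 0 → (∀ w : HeightOneSpectrum R, IsPw p (w.valuation L z)) →
      (∃ u : K, Algebra.norm K z = u ^ p) → ∃ c : L, z = c ^ p

/-- Transport of the divisibility of valuations. -/
theorem pw_hom {p : ℕ} {R L R' L' : Type} [CommRing R] [IsDedekindDomain R] [Field L] [Algebra R L]
    [IsFractionRing R L] [CommRing R'] [IsDedekindDomain R'] [Field L'] [Algebra R' L']
    [IsFractionRing R' L'] (φ : R ≃+* R') (ψ : L ≃+* L')
    (h : ∀ r, ψ (algebraMap R L r) = algebraMap R' L' (φ r)) {z : L}
    (hz : ∀ w : HeightOneSpectrum R, IsPw p (w.valuation L z)) (w : HeightOneSpectrum R') :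
    IsPw p (w.valuation L' (ψ z)) := by
  letI : Algebra R R' := φ.toRingHom.toAlgebra
  letI : Algebra L L' := ψ.toRingHom.toAlgebra
  letI : Algebra R L' := ((algebraMap L L').comp (algebraMap R L)).toAlgebra
  haveI : IsScalarTower R L L' := IsScalarTower.of_algebraMap_eq fun _ => rfl
  haveI : IsScalarTower R R' L' := IsScalarTower.of_algebraMap_eq fun r => h r
  haveI : Algebra.IsIntegral R R' := ⟨fun x => by
    obtain ⟨y, rfl⟩ := φ.surjective x
    exact isIntegral_algebraMap (x := y)⟩
  haveI : Module.IsTorsionFree R R' := by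
    rw [Module.isTorsionFree_iff_algebraMap_injective]
    exact φ.injective
  have h1 := val_under (A := R) (K := L) (B := R') (L := L') w z
  have h3 : algebraMap L L' z = ψ z := rfl
  rw [← h3, h1]
  exact (hz _).pow _

/-- The automorphism of the ring of integers. -/
theorem exists_aut {k : Type} [Field k] {L : Type} [Field L] [Algebra k[X] L] (R : Type)
    [CommRing R] [Algebra k[X] R] [Algebra R L] [IsScalarTower k[X] R L] [IsIntegralClosure R k[X] L]
    (γ : L ≃+* L) (hγ : ∀ a : k[X], γ (algebraMap k[X] L a) = algebraMap k[X] L a) :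
    ∃ φ : R ≃+* R, ∀ r, γ (algebraMap R L r) = algebraMap R L (φ r) := by
  let γ' : L ≃ₐ[k[X]] L := AlgEquiv.ofRingEquiv (f := γ) hγ
  have hinj := IsIntegralClosure.algebraMap_injective R k[X] L
  haveI := IsIntegralClosure.isIntegral_algebra k[X] (A := R) L
  have hex : ∀ (δ : L ≃ₐ[k[X]] L) (r : R), ∃ r' : R, algebraMap R L r' = δ (algebraMap R L r) := by
    intro δ r
    apply (IsIntegralClosure.isIntegral_iff (A := R) (R := k[X])).1
    exact (IsIntegralClosure.isIntegral k[X] L r).algebraMap.map δ.toAlgHom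
  choose F hF using hex
  refine ⟨{ toFun := F γ'
            invFun := F γ'.symm
            left_inv := fun r => hinj (by rw [hF, hF, AlgEquiv.symm_apply_apply])
            right_inv := fun r => hinj (by rw [hF, hF, AlgEquiv.apply_symm_apply])
            map_mul' := fun a b => hinj (by rw [hF, map_mul, map_mul, map_mul, hF, hF])
            map_add' := fun a b => hinj (by rw [hF, map_add, map_add, map_add, hF, hF]) },
    fun r => (hF γ' r).symm⟩

section step

variable {k : Type} [Field k] {g : k[X]} {p : ℕ}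

/-- The valuations of the element of the smaller field are divisible by `p`. -/
theorem pw_all (H : Base p k) (hg : Deg p g)
    {K' K L' L : Type} [Field K'] [Field K] [Field L'] [Field L]
    [Algebra k[X] K'] [Algebra k[X] K] [Algebra k[X] L'] [Algebra k[X] L]
    [Algebra K' K] [Algebra K' L'] [Algebra K L] [Algebra L' L] [Algebra K' L]
    [IsScalarTower K' K L] [IsScalarTower K' L' L] [IsScalarTower k[X] K' K]
    [IsScalarTower k[X] K' L'] [IsScalarTower k[X] L' L] [IsScalarTower k[X] K L]
    {D : K'} {s : K} (hq : IsKum p D s) {θ' : L'} (hθ' : aeval θ' (ff g K') = 0)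
    (htop' : IntermediateField.adjoin K' {θ'} = ⊤)
    (htop : IntermediateField.adjoin K {algebraMap L' L θ'} = ⊤)
    (hirr' : Irreducible (ff g K')) (hirr : Irreducible (ff g K)) {m' : ℕ} {s' : ℕ → K'}
    (htw : IsTower p k K' m' s') (hfsL' : FS k L') (hfsL : FS k L) (hram : RamK g K)
    {R' R : Type} [CommRing R'] [CommRing R] [IsDedekindDomain R'] [IsDedekindDomain R]
    [Algebra k[X] R'] [Algebra k[X] R] [Algebra R' L'] [Algebra R L] [IsScalarTower k[X] R' L']
    [IsScalarTower k[X] R L] [IsIntegralClosure R' k[X] L'] [IsIntegralClosure R k[X] L]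
    [IsFractionRing R' L'] [IsFractionRing R L]
    {x : L'} (hx0 : x ≠ 0) {y : K'} (hy : Algebra.norm K' x = y ^ p)
    (hev : ∀ w : HeightOneSpectrum R, IsPw p (w.valuation L (algebraMap L' L x)))
    (q : HeightOneSpectrum R') : IsPw p (q.valuation L' x) := by
  have hm' : (ff g K').Monic := ff_monic hg.monic hg.pos
  have hqL : IsKum p (algebraMap K' L' D) (algebraMap K L s) := by
    refine kum_up hq htop' htop hm' ?_ hirr' ?_ hθ'
    · rw [ff_natDegree hg.monic hg.pos]
      exact hg.pos
    · rwa [ff_alg]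
  -- the rings
  obtain ⟨φR, hφR1, hφR2⟩ := exists_alg (k := k) (K' := L') (K := L) R' R
  letI : Algebra R' R := φR.toAlgebra
  haveI : IsScalarTower k[X] R' R := IsScalarTower.of_algebraMap_eq fun p => (hφR2 p).symm
  haveI := hfsL.finite R
  haveI := hfsL'.finite R'
  haveI : Module.Finite R' R := Module.Finite.of_restrictScalars_finite k[X] R' R
  haveI : Algebra.IsIntegral R' R := Algebra.IsIntegral.of_finite R' R
  haveI : Module.IsTorsionFree R' R := by
    rw [Module.isTorsionFree_iff_algebraMap_injective]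
    exact tf_of (K' := L') (K := L) (IsFractionRing.injective R' L') hφR1
  letI : Algebra R' L := ((algebraMap L' L).comp (algebraMap R' L')).toAlgebra
  haveI : IsScalarTower R' L' L := IsScalarTower.of_algebraMap_eq fun _ => rfl
  haveI : IsScalarTower R' R L := IsScalarTower.of_algebraMap_eq fun a => (hφR1 a).symm
  by_cases hD : IsPw p (q.valuation L' (algebraMap K' L' D))
  · refine pw_down (B := R) hqL ?_ q hD hev
    have h3 : (p : R') = algebraMap k[X] R' (C (p : k)) := by
      rw [show (C (p : k) : k[X]) = (p : k[X]) by rw [map_natCast], map_natCast]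
    rw [h3]
    exact (isUnit_C.2 (IsUnit.mk0 _ H.ne)).map _
  · -- the rings of integers of `K'` and `K`
    have hfs' : FS k K' := htw.fs H
    have hfs : FS k K := hfs'.trans hq.fin hq.separable
    obtain ⟨A', a1, a2, a3, a4, a5⟩ := exists_ic (k := k) K'
    obtain ⟨A, b1, b2, b3, b4, b5⟩ := exists_ic (k := k) K
    obtain ⟨φ, hφ1, hφ2⟩ := exists_alg (k := k) (K' := K') (K := K) A' A
    obtain ⟨ψ, hψ1, hψ2⟩ := exists_alg (k := k) (K' := K') (K := L') A' R'
    letI : Algebra A' A := φ.toAlgebra
    letI : Algebra A' R' := ψ.toAlgebra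
    haveI : IsScalarTower k[X] A' A := IsScalarTower.of_algebraMap_eq fun p => (hφ2 p).symm
    haveI : IsScalarTower k[X] A' R' := IsScalarTower.of_algebraMap_eq fun p => (hψ2 p).symm
    haveI := hfs.ded A
    haveI := hfs.frac A
    haveI := hfs.finite A
    haveI := hfs'.ded A'
    haveI := hfs'.frac A'
    haveI := hfs'.finite A'
    haveI : Module.Finite A' A := Module.Finite.of_restrictScalars_finite k[X] A' A
    haveI : Module.Finite A' R' := Module.Finite.of_restrictScalars_finite k[X] A' R'
    haveI : Algebra.IsIntegral A' A := Algebra.IsIntegral.of_finite A' A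
    haveI : Algebra.IsIntegral A' R' := Algebra.IsIntegral.of_finite A' R'
    haveI : Algebra.IsIntegral k[X] A' := Algebra.IsIntegral.of_finite k[X] A'
    haveI : Module.IsTorsionFree A' A := by
      rw [Module.isTorsionFree_iff_algebraMap_injective]
      exact tf_of (K' := K') (K := K) (IsFractionRing.injective A' K') hφ1
    haveI : Module.IsTorsionFree A' R' := by
      rw [Module.isTorsionFree_iff_algebraMap_injective]
      exact tf_of (K' := K') (K := L') (IsFractionRing.injective A' K') hψ1
    haveI : Module.IsTorsionFree k[X] R' := by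
      rw [Module.isTorsionFree_iff_algebraMap_injective]
      exact hfsL'.injB R'
    letI : Algebra A' K := ((algebraMap K' K).comp (algebraMap A' K')).toAlgebra
    haveI : IsScalarTower A' K' K := IsScalarTower.of_algebraMap_eq fun _ => rfl
    haveI : IsScalarTower A' A K := IsScalarTower.of_algebraMap_eq fun a => (hφ1 a).symm
    letI : Algebra A' L' := ((algebraMap K' L').comp (algebraMap A' K')).toAlgebra
    haveI : IsScalarTower A' K' L' := IsScalarTower.of_algebraMap_eq fun _ => rfl
    haveI : IsScalarTower A' R' L' := IsScalarTower.of_algebraMap_eq fun a => (hψ1 a).symm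
    set P := q.under A' with hP
    have hDp : ¬ IsPw p (P.valuation K' D) := by
      rintro ⟨δ, hδ⟩
      apply hD
      rw [val_under (A := A'), ← hP, hδ]
      exact ⟨δ ^ P.asIdeal.ramificationIdx' q.asIdeal, by rw [← pow_mul, ← pow_mul, mul_comm]⟩
    obtain ⟨V, hV⟩ := exists_above (B := A) P
    have h1 : P.asIdeal.map (algebraMap A' A) ≤ V.asIdeal ^ 2 := by
      rw [← hV] at hDp ⊢
      exact ram_of (K := K') (L := K) hq V hDp
    obtain ⟨b, -, hb, hbp⟩ := exists_irr (hfs'.injB A') P
    have hbV : algebraMap k[X] A b ∈ V.asIdeal ^ 2 := by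
      rw [IsScalarTower.algebraMap_apply k[X] A' A]
      exact h1 (Ideal.mem_map_of_mem _ hbp)
    obtain ⟨hbi, -⟩ := hram A V b hb hbV
    -- the root
    have hroot : algebraMap k[X] L' X = -(eval₂ ((algebraMap K' L').comp (cst k K')) θ' g) := by
      have h3 := hθ'
      rw [aeval_def, Pool.Agent.Q45.TW.eval₂_ff, ← IsScalarTower.algebraMap_apply k[X] K' L'] at h3
      linear_combination h3
    have hcc : (algebraMap K' L').comp (cst k K') = (algebraMap R' L').comp (cst k R') := by
      refine RingHom.ext fun x => ?_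
      show algebraMap K' L' (algebraMap k[X] K' (C x)) = algebraMap R' L' (algebraMap k[X] R' (C x))
      rw [← IsScalarTower.algebraMap_apply, ← IsScalarTower.algebraMap_apply]
    obtain ⟨θR, hθR⟩ : ∃ θR : R', algebraMap R' L' θR = θ' := by
      apply (IsIntegralClosure.isIntegral_iff (A := R') (R := k[X])).1
      refine ⟨g.map C + C X, ?_, ?_⟩
      · refine (hg.monic.map C).add_of_left ?_
        refine lt_of_le_of_lt degree_C_le ?_
        rw [degree_map_eq_of_injective C_injective]
        exact natDegree_pos_iff_degree_pos.1 hg.pos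
      · rw [eval₂_add, eval₂_map, eval₂_C, hroot]
        have h3 : (algebraMap k[X] L').comp C = (algebraMap K' L').comp (cst k K') := by
          refine RingHom.ext fun x => ?_
          show algebraMap k[X] L' (C x) = algebraMap K' L' (algebraMap k[X] K' (C x))
          rw [← IsScalarTower.algebraMap_apply]
        rw [h3, add_neg_cancel]
    have hθR2 : eval₂ (cst k R') θR g = -algebraMap k[X] R' X := by
      apply IsFractionRing.injective R' L'
      rw [hom_eval₂, hθR, ← hcc, map_neg, ← IsScalarTower.algebraMap_apply k[X] R' L', hroot,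
        neg_neg]
    have hfr : Module.finrank K' L' = g.natDegree := by
      rw [Pool.Agent.Q45.TW.finrank_of hirr' hm' hθ' htop', ff_natDegree hg.monic hg.pos]
    have hn : Module.finrank A' R' = g.natDegree := by
      rw [← IsFractionRing.finrank_eq A' K' R' L', hfr]
    obtain ⟨j, hj⟩ := htw.pow H A' P
    have hmap := inert_q q hb (show algebraMap k[X] R' b ∈ q.asIdeal by
      rw [IsScalarTower.algebraMap_apply k[X] A' R']
      exact hbp) θR hθR2 hbi hg hn hj
    haveI : FiniteDimensional K' L' := Pool.Agent.Q45.TW.fin_of hm' hθ' htop'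
    exact pw_inert H.prime.ne_zero P q hmap (by rw [hfr]; exact hg.cop) hx0 hy

/-- **The inductive step.** -/
theorem Triv.step (H : Base p k) (hg : Deg p g)
    (hd : derivative g ≠ 0) {K' K : Type} [Field K'] [Field K] [Algebra k[X] K'] [Algebra k[X] K]
    [Algebra K' K] [IsScalarTower k[X] K' K] {D : K'} {s : K} (hq : IsKum p D s) {m' : ℕ}
    {s' : ℕ → K'} (htw : IsTower p k K' m' s') (hram : RamK g K) (ih : Triv p g K') :
    Triv p g K := by
  intro L _ _ _ _ θ hθ htop R _ _ _ _ _ _ _ z hz hev hu
  have hp := H.prime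
  have hirr' : Irreducible (ff g K') := htw.irr H hg
  haveI := hq.fin
  have hirr : Irreducible (ff g K) := irr_step hg hq hirr'
  have hsep' : (ff g K').Separable := sep_ff hirr' hd
  have hsep : (ff g K).Separable := sep_ff hirr hd
  have hm' : (ff g K').Monic := ff_monic hg.monic hg.pos
  have hm : (ff g K).Monic := ff_monic hg.monic hg.pos
  letI : Algebra K' L := ((algebraMap K L).comp (algebraMap K' K)).toAlgebra
  haveI : IsScalarTower K' K L := IsScalarTower.of_algebraMap_eq fun _ => rfl
  haveI : IsScalarTower k[X] K' L := IsScalarTower.of_algebraMap_eq fun p => by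
    show algebraMap k[X] L p = algebraMap K L (algebraMap K' K (algebraMap k[X] K' p))
    rw [← IsScalarTower.algebraMap_apply k[X] K' K, ← IsScalarTower.algebraMap_apply k[X] K L]
  obtain ⟨L', l1, l2, l3, l4, θ', l5, l6, l7, rfl, htop'⟩ := exists_sub (k := k) (K' := K') θ
  have hθ' : aeval θ' (ff g K') = 0 := by
    apply (algebraMap L' L).injective
    rw [← aeval_algebraMap_apply, ← aeval_map_algebraMap K, ff_alg, hθ, map_zero]
  have hfs' : FS k K' := htw.fs H
  have hfs : FS k K := hfs'.trans hq.fin hq.separable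
  haveI : FiniteDimensional K' L' := Pool.Agent.Q45.TW.fin_of hm' hθ' htop'
  haveI : FiniteDimensional K L := Pool.Agent.Q45.TW.fin_of hm hθ htop
  have hfsL' : FS k L' := hfs'.trans (Pool.Agent.Q45.TW.fin_of hm' hθ' htop')
    (Pool.Agent.Q45.TW.sep_of hsep' hθ' htop')
  have hfsL : FS k L := hfs.trans (Pool.Agent.Q45.TW.fin_of hm hθ htop)
    (Pool.Agent.Q45.TW.sep_of hsep hθ htop)
  have hqL : IsKum p (algebraMap K' L' D) (algebraMap K L s) := by
    refine kum_up hq htop' htop hm' ?_ hirr' ?_ hθ'
    · rw [ff_natDegree hg.monic hg.pos]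
      exact hg.pos
    · rwa [ff_alg]
  haveI := hqL.fin
  obtain ⟨R', r1, r2, r3, r4, r5⟩ := exists_ic (k := k) L'
  haveI := hfsL'.ded R'
  haveI := hfsL'.frac R'
  -- the automorphisms
  obtain ⟨ζ, hζ⟩ := hq.zeta
  obtain ⟨γ, hγ, hγ2⟩ := hqL.exists_gen (hζ.map_of_injective (algebraMap K' L').injective)
  obtain ⟨γ₀, hγ₀, -⟩ := hq.exists_gen hζ
  have hcomp := gal_comp hq hγ₀ hγ
  obtain ⟨φ, hφ⟩ := exists_aut (k := k) R (γ : L ≃+* L) (fun a => by
    show γ (algebraMap k[X] L a) = algebraMap k[X] L a
    rw [IsScalarTower.algebraMap_apply k[X] L' L, γ.commutes])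
  have hγp : (γ : L ≃+* L) ^ p = 1 := by
    have h1 : γ ^ p = 1 := by
      rw [← hqL.card]
      exact pow_card_eq_one'
    have h3 : ∀ n : ℕ, ∀ x : L, ((γ : L ≃+* L) ^ n) x = (γ ^ n) x := by
      intro n
      induction n with
      | zero => intro x; rfl
      | succ n ih =>
        intro x
        rw [pow_succ, pow_succ]
        show ((γ : L ≃+* L) ^ n) (γ x) = (γ ^ n) (γ x)
        exact ih _
    refine RingEquiv.ext fun x => ?_
    rw [h3, h1]
    rfl
  refine cyc hp (γ : L ≃+* L) hγp (fun z => (∀ w : HeightOneSpectrum R, IsPw p (w.valuation L z)) ∧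
    ∃ u : K, Algebra.norm K z = u ^ p) ?_ ?_ hz ⟨hev, hu⟩
  · rintro z hz ⟨hev, u, hu⟩
    have hγz : γ z ≠ 0 := (_root_.map_ne_zero γ).2 hz
    refine ⟨fun w => ?_, γ₀ u / u, ?_⟩
    · have h1 := pw_hom φ (γ : L ≃+* L) hφ hev w
      obtain ⟨δ, hδ⟩ := h1
      obtain ⟨ε, hε⟩ := hev w
      refine ⟨δ / ε, ?_⟩
      rw [map_div₀, hδ, hε, div_pow]
    · show Algebra.norm K (γ z / z) = _
      have hnz : Algebra.norm K z ≠ 0 := (Algebra.norm_ne_zero_iff).2 hz
      have h5 : Algebra.norm K (γ z / z) = Algebra.norm K (γ z) / Algebra.norm K z :=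
        eq_div_of_mul_eq hnz (by rw [← map_mul, div_mul_cancel₀ _ hz])
      rw [h5, norm_gal hcomp, hu, map_pow, div_pow]
  · rintro z hz ⟨hev, u, hu⟩ ⟨w, hw, hzw⟩
    obtain ⟨z', v, c, hz', hv, hc, hzv⟩ := fixed_class hg hq hθ' htop' htop hirr' hirr hsep' hζ hγ
      hγ2 hz hu hw hzw
    have hev' : ∀ Q : HeightOneSpectrum R, IsPw p (Q.valuation L (algebraMap L' L z')) := by
      intro Q
      have h1 := hev Q
      rw [hzv, map_mul, map_pow] at h1
      exact IsPw.of_mul ((Valuation.ne_zero_iff _).2 hv) h1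
    obtain ⟨c₁, hc₁⟩ := ih L' θ' hθ' htop' R' z' hz' (fun q => pw_all H hg hq hθ' htop' htop
      hirr' hirr htw hfsL' hfsL hram hz' hc hev' q) ⟨c, hc⟩
    exact ⟨algebraMap L' L c₁ * v, by rw [hzv, hc₁, map_pow, mul_pow]⟩

end step

end Pool.Agent.H89.KT
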