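import Pool.Agent.H89.KT.Pow

/-!
# Classes modulo `p`-th powers fixed by a cyclic group of order `p`
-/

set_option autoImplicit false
set_option linter.all false

open Polynomial IsDedekindDomain WithZero
open scoped Classical

namespace Pool.Agent.H89.KT

open Pool.Agent.Q45.TW (cst ff ff_monic ff_natDegree ff_map)

/-- In the ring of endomorphisms, `(φ - 1) ^ p` is divisible by `p` if `φ ^ p = 1`. -/
theorem sub_one_pow {R : Type} [Ring R] {p : ℕ} (hp : p.Prime) (φ : R) (hφ : φ ^ p = 1) :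
    ∃ r : R, (φ - 1) ^ p = p * r := by
  obtain ⟨r, hr⟩ := Commute.exists_add_pow_prime_eq hp (x := φ) (y := -1)
    ((Commute.one_right φ).neg_right)
  rw [← sub_eq_add_neg, hφ] at hr
  rcases hp.eq_two_or_odd' with h2 | h2
  · subst h2
    refine ⟨1 + φ * (-1) * r, ?_⟩
    rw [hr]
    push_cast
    noncomm_ring
  · refine ⟨φ * (-1) * r, ?_⟩
    rw [hr, h2.neg_one_pow]
    noncomm_ring

/-- If every class fixed by `g` in a subgroup of `Lˣ / p` which is stable under `g` is trivial,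
then the subgroup is trivial. -/
theorem cyc {L : Type} [Field L] {p : ℕ} (hp : p.Prime) (g : L ≃+* L) (hg : g ^ p = 1)
    (P : L → Prop) (hdiv : ∀ z, z ≠ 0 → P z → P (g z / z))
    (hfix : ∀ z, z ≠ 0 → P z → (∃ w : L, w ≠ 0 ∧ g z = z * w ^ p) → ∃ c : L, z = c ^ p)
    {z : L} (hz : z ≠ 0) (hP : P z) : ∃ c : L, z = c ^ p := by
  let ψ : Lˣ →* Lˣ := Units.map (g : L →* L)
  let φ : AddMonoid.End (Additive Lˣ) := MonoidHom.toAdditive ψ
  have hφ1 : ∀ u : Lˣ, ((φ (Additive.ofMul u)).toMul : L) = g u := fun u => rfl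
  have hφn : ∀ (n : ℕ) (u : Lˣ), (((φ ^ n) (Additive.ofMul u)).toMul : L) = (g ^ n) u := by
    intro n
    induction n with
    | zero => intro u; rfl
    | succ n ih =>
      intro u
      have h1 : (φ ^ (n + 1)) (Additive.ofMul u) = (φ ^ n) (Additive.ofMul (φ (Additive.ofMul u)).toMul) := by
        rw [pow_succ]
        rfl
      have h3 : (g ^ (n + 1)) (u : L) = (g ^ n) (g (u : L)) := by
        rw [pow_succ]
        rfl
      rw [h1, ih, h3]
      rfl
  have hφp : φ ^ p = 1 := by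
    refine AddMonoidHom.ext fun m => ?_
    obtain ⟨u, rfl⟩ := Additive.ofMul.surjective m
    have h1 := hφn p u
    rw [hg] at h1
    show (φ ^ p) (Additive.ofMul u) = Additive.ofMul u
    apply Additive.toMul.injective
    exact Units.ext h1
  obtain ⟨r, hr⟩ := sub_one_pow hp φ hφp
  have key : ∀ (n : ℕ) (u : Lˣ), P (u : L) →
      (∃ m : Additive Lˣ, ((φ - 1) ^ n) (Additive.ofMul u) = p • m) → ∃ c : L, (u : L) = c ^ p := by
    intro n
    induction n with
    | zero =>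
      intro u hu hm
      obtain ⟨m, hm⟩ := hm
      have h1 : Additive.ofMul u = p • m := hm
      have h3 := congrArg (fun x : Additive Lˣ => ((x.toMul : Lˣ) : L)) h1
      exact ⟨((m.toMul : Lˣ) : L), h3⟩
    | succ n ih =>
      intro u hu hm
      obtain ⟨m, hm⟩ := hm
      have h1 : ((φ - 1) ^ (n + 1)) (Additive.ofMul u) =
          ((φ - 1) ^ n) (Additive.ofMul (ψ u / u)) := by
        rw [pow_succ]
        rfl
      rw [h1] at hm
      have h3 : ((ψ u / u : Lˣ) : L) = g u / u := Units.val_div_eq_div_val _ _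
      obtain ⟨c, hc⟩ := ih (ψ u / u) (by rw [h3]; exact hdiv _ u.ne_zero hu) ⟨m, hm⟩
      rw [h3] at hc
      have hgu : g (u : L) ≠ 0 := (_root_.map_ne_zero g).2 u.ne_zero
      refine hfix _ u.ne_zero hu ⟨c, ?_, ?_⟩
      · rintro rfl
        rw [zero_pow hp.ne_zero] at hc
        exact div_ne_zero hgu u.ne_zero hc
      · rw [← hc, mul_div_cancel₀ _ u.ne_zero]
  refine key p (Units.mk0 z hz) hP ⟨r (Additive.ofMul (Units.mk0 z hz)), ?_⟩
  rw [hr]
  have h1 : ((p : AddMonoid.End (Additive Lˣ)) * r) = p • r := (nsmul_eq_mul p r).symm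
  rw [h1]
  rfl

section fixed

variable {k : Type} [Field k] {g : k[X]} {p : ℕ} {K' K L' L : Type} [Field K'] [Field K] [Field L']
  [Field L] [Algebra k[X] K'] [Algebra k[X] K] [Algebra k[X] L'] [Algebra k[X] L]
  [Algebra K' K] [Algebra K' L'] [Algebra K L] [Algebra L' L] [Algebra K' L]
  [IsScalarTower K' K L] [IsScalarTower K' L' L] [IsScalarTower k[X] K' K]
  [IsScalarTower k[X] K' L'] [IsScalarTower k[X] L' L] [IsScalarTower k[X] K L]
  {D : K'} {s : K}

/-- Compatibility of the automorphisms. -/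
theorem gal_comp (hq : IsKum p D s) {ζ : K'} {γ₀ : K ≃ₐ[K'] K}
    (hγ₀ : γ₀ s = algebraMap K' K ζ * s) {γ : L ≃ₐ[L'] L}
    (hγ : γ (algebraMap K L s) = algebraMap L' L (algebraMap K' L' ζ) * algebraMap K L s) (x : K) :
    γ (algebraMap K L x) = algebraMap K L (γ₀ x) := by
  obtain ⟨P, rfl⟩ := hq.rep x
  have e1 : ∀ y : K, algebraMap K L (aeval y P) = eval₂ (algebraMap K' L) (algebraMap K L y) P := by
    intro y
    rw [aeval_def, hom_eval₂, ← IsScalarTower.algebraMap_eq K' K L]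
  have e3 : γ₀ (aeval s P) = aeval (γ₀ s) P := (aeval_algHom_apply γ₀.toAlgHom s P).symm
  rw [e3, e1, e1]
  have h1 := hom_eval₂ P (algebraMap K' L) (γ : L →+* L) (algebraMap K L s)
  have h3 : (γ : L →+* L).comp (algebraMap K' L) = algebraMap K' L := by
    refine RingHom.ext fun c => ?_
    show γ (algebraMap K' L c) = algebraMap K' L c
    rw [IsScalarTower.algebraMap_apply K' L' L, γ.commutes]
  rw [h3] at h1
  refine h1.trans ?_
  congr 1
  show γ (algebraMap K L s) = _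
  rw [hγ, hγ₀, map_mul, ← IsScalarTower.algebraMap_apply K' L' L,
    ← IsScalarTower.algebraMap_apply K' K L]

theorem norm_gal {γ₀ : K ≃ₐ[K'] K} {γ : L ≃ₐ[L'] L}
    (h : ∀ x : K, γ (algebraMap K L x) = algebraMap K L (γ₀ x)) (z : L) :
    Algebra.norm K (γ z) = γ₀ (Algebra.norm K z) := by
  have h1 := Algebra.norm_eq_of_equiv_equiv (γ₀ : K ≃+* K) (γ : L ≃+* L)
    (RingHom.ext fun x => (h x).symm) z
  rw [h1]
  show _ = γ₀ ((γ₀ : K ≃+* K).symm _)
  exact ((γ₀ : K ≃+* K).apply_symm_apply _).symm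

/-- **A class fixed by the Galois group comes from the smaller field.** -/
theorem fixed_class (hg : Deg p g) (hq : IsKum p D s) {θ' : L'} (hθ' : aeval θ' (ff g K') = 0)
    (htop' : IntermediateField.adjoin K' {θ'} = ⊤)
    (htop : IntermediateField.adjoin K {algebraMap L' L θ'} = ⊤)
    (hirr' : Irreducible (ff g K')) (hirr : Irreducible (ff g K)) (hsep' : (ff g K').Separable)
    {ζ : K'} (hζ : IsPrimitiveRoot ζ p) {γ : L ≃ₐ[L'] L}
    (hγ : γ (algebraMap K L s) = algebraMap L' L (algebraMap K' L' ζ) * algebraMap K L s)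
    (hγ2 : ∀ x, x ∈ Subgroup.zpowers γ)
    {z : L} (hz : z ≠ 0) {y : K} (hy : Algebra.norm K z = y ^ p) {w : L} (hw : w ≠ 0)
    (hzw : γ z = z * w ^ p) :
    ∃ (z' : L') (v : L) (c : K'), z' ≠ 0 ∧ v ≠ 0 ∧ Algebra.norm K' z' = c ^ p ∧
      z = algebraMap L' L z' * v ^ p := by
  have hp := hq.prime
  have hm' : (ff g K').Monic := ff_monic hg.monic hg.pos
  have hm : (ff g K).Monic := ff_monic hg.monic hg.pos
  have hqL : IsKum p (algebraMap K' L' D) (algebraMap K L s) := by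
    refine kum_up hq htop' htop hm' ?_ hirr' ?_ hθ'
    · rw [ff_natDegree hg.monic hg.pos]
      exact hg.pos
    · rwa [Pool.Agent.Q45.TT.ff_alg]
  haveI := hq.fin
  haveI := hqL.fin
  haveI : FiniteDimensional K' L' := Pool.Agent.Q45.TW.fin_of hm' hθ' htop'
  have hθ : aeval (algebraMap L' L θ') (ff g K) = 0 := by
    rw [← Pool.Agent.Q45.TT.ff_alg (K' := K'), aeval_map_algebraMap, aeval_algebraMap_apply, hθ',
      map_zero]
  haveI : FiniteDimensional K L := Pool.Agent.Q45.TW.fin_of hm hθ htop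
  haveI : FiniteDimensional K' L := Module.Finite.trans K L
  have hn' : Module.finrank K' L' = g.natDegree := by
    rw [Pool.Agent.Q45.TW.finrank_of hirr' hm' hθ' htop', ff_natDegree hg.monic hg.pos]
  obtain ⟨γ₀, hγ₀, -⟩ := hq.exists_gen hζ
  have hcomp := gal_comp hq hγ₀ hγ
  have hNz : Algebra.norm K z ≠ 0 := (Algebra.norm_ne_zero_iff).2 hz
  have hy0 : y ≠ 0 := by
    rintro rfl
    rw [zero_pow hp.ne_zero] at hy
    exact hNz hy
  have hNw : Algebra.norm K w ≠ 0 := (Algebra.norm_ne_zero_iff).2 hw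
  -- the norm to `K'` of `w` is one
  have h1 : (γ₀ y) ^ p = (y * Algebra.norm K w) ^ p := by
    rw [← map_pow, ← hy, ← norm_gal hcomp, hzw, map_mul, map_pow, hy, mul_pow]
  obtain ⟨j, hj⟩ := root_of hp (hζ.map_of_injective (algebraMap K' K).injective)
    (mul_ne_zero hy0 hNw) h1
  have hNy : Algebra.norm K' y ≠ 0 := (Algebra.norm_ne_zero_iff).2 hy0
  have h3 : Algebra.norm K' (Algebra.norm K w) = 1 := by
    have h4 := congrArg (Algebra.norm K') hj
    have h5 : Algebra.norm K' (γ₀ y) = Algebra.norm K' y := Algebra.norm_eq_of_algEquiv γ₀ y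
    rw [h5, map_mul, map_mul, ← map_pow, Algebra.norm_algebraMap, hq.finrank, ← pow_mul, mul_comm j,
      pow_mul, hζ.pow_eq_one, one_pow, one_mul] at h4
    have h6 : Algebra.norm K' y * (Algebra.norm K' (Algebra.norm K w) - 1) = 0 := by
      rw [mul_sub, mul_one, ← h4, sub_self]
    exact sub_eq_zero.1 ((mul_eq_zero.1 h6).resolve_left hNy)
  rw [Algebra.norm_norm] at h3
  -- the norm to `L'`
  have h5 : (Algebra.norm L' w) ^ p = 1 ^ p := by
    have h6 : Algebra.norm L' (γ z) = Algebra.norm L' z := Algebra.norm_eq_of_algEquiv γ z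
    rw [hzw, map_mul, map_pow] at h6
    have h7 : Algebra.norm L' z ≠ 0 := (Algebra.norm_ne_zero_iff).2 hz
    rw [one_pow]
    have h8 : Algebra.norm L' z * (Algebra.norm L' w ^ p - 1) = 0 := by
      rw [mul_sub, mul_one, h6, sub_self]
    exact sub_eq_zero.1 ((mul_eq_zero.1 h8).resolve_left h7)
  obtain ⟨i, hi⟩ := root_of hp (hζ.map_of_injective (algebraMap K' L').injective) one_ne_zero h5
  rw [mul_one, ← map_pow] at hi
  have h6 : (ζ ^ i) ^ g.natDegree = 1 := by
    rw [← hn', ← Algebra.norm_algebraMap (S := L'), ← hi, Algebra.norm_norm, h3]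
  have h7 : p ∣ i := by
    rw [← pow_mul] at h6
    exact hg.cop.dvd_of_dvd_mul_right (hζ.dvd_of_pow_eq_one _ h6)
  have h8 : Algebra.norm L' w = 1 := by
    rw [hi, (hζ.pow_eq_one_iff_dvd i).2 h7, map_one]
  -- Hilbert's theorem 90
  obtain ⟨v, hv0, hv⟩ := hqL.hilbert hγ2 h8
  have hfix : γ (z / v ^ p) = z / v ^ p := by
    rw [map_div₀, map_pow, hv, hzw, mul_pow]
    have := pow_ne_zero p hw
    have := pow_ne_zero p hv0
    field_simp
  obtain ⟨z₁, hz₁⟩ := hqL.fixed hγ2 hfix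
  have hzz : z = algebraMap L' L z₁ * v ^ p := by
    rw [hz₁, div_mul_cancel₀ _ (pow_ne_zero p hv0)]
  have hz₁0 : z₁ ≠ 0 := by
    rintro rfl
    rw [map_zero, zero_mul] at hzz
    exact hz hzz
  have hno : Algebra.norm K (algebraMap L' L z₁) = algebraMap K' K (Algebra.norm K' z₁) :=
    Pool.Agent.Q45.TW.norm_base hm' hsep' hirr' (by rwa [Pool.Agent.Q45.TT.ff_alg]) hθ' htop' htop z₁
  have hNv : Algebra.norm K v ≠ 0 := (Algebra.norm_ne_zero_iff).2 hv0
  have hν0 : Algebra.norm K' z₁ ≠ 0 := (Algebra.norm_ne_zero_iff).2 hz₁0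
  have h9 : (y / Algebra.norm K v) ^ p = algebraMap K' K (Algebra.norm K' z₁) := by
    rw [div_pow, ← hy, ← hno, div_eq_iff (pow_ne_zero p hNv), ← map_pow, ← map_mul, ← hzz]
  obtain ⟨c, j', hc, hcν⟩ := hq.pw_base hν0 h9
  -- correction by a power of `D`
  obtain ⟨a, ha⟩ : ∃ a : ℕ, p ∣ j' + g.natDegree * a := by
    haveI : NeZero p := ⟨hp.ne_zero⟩
    obtain ⟨b, -, hb⟩ := Nat.exists_mul_mod_eq_one_of_coprime hg.cop.symm hp.one_lt
    obtain ⟨q, hq⟩ : ∃ q, g.natDegree * b = 1 + p * q :=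
      ⟨g.natDegree * b / p, by rw [← hb, Nat.mod_add_div]⟩
    obtain ⟨r, hr⟩ : ∃ r, p = r + 1 := Nat.exists_eq_succ_of_ne_zero hp.ne_zero
    refine ⟨b * (r * j'), j' + q * (r * j'), ?_⟩
    rw [← mul_assoc, hq, hr]
    ring
  obtain ⟨b, hb⟩ := ha
  have hs : algebraMap K L s ≠ 0 := (_root_.map_ne_zero _).2 hq.s_ne
  have hD' : algebraMap K' L' D ≠ 0 := (_root_.map_ne_zero _).2 hq.ne_zero
  refine ⟨z₁ * algebraMap K' L' D ^ a, v / algebraMap K L s ^ a, c * D ^ b,
    mul_ne_zero hz₁0 (pow_ne_zero _ hD'), div_ne_zero hv0 (pow_ne_zero _ hs), ?_, ?_⟩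
  · rw [map_mul, ← map_pow, Algebra.norm_algebraMap, hn', hcν, mul_pow, ← pow_mul, ← pow_mul, mul_assoc,
      ← pow_add, mul_comm a, hb, mul_comm b]
  · rw [hzz, map_mul, map_pow, ← hqL.pw, div_pow]
    have := pow_ne_zero a (pow_ne_zero p hs)
    field_simp
    ring

end fixed

end Pool.Agent.H89.KT
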