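import Pool.Agent.H89.KT.Base

/-!
# Integral derivations at the unramified places
-/

set_option autoImplicit false
set_option linter.all false

open Polynomial IsDedekindDomain WithZero
open scoped Classical

namespace Pool.Agent.H89.KT

open Pool.Agent.Q45.TW (cst ff ff_monic ff_natDegree ff_map)
open Pool.Agent.Y160.SE (IsPw)
open Pool.Agent.Q45.TT (FS inertia_le exists_ic exists_alg exists_above tf_of inert_of dvd_inertia
  RamK Ram exists_irr val_under ram_ne_zero exists_sub irr_base sep_ff ff_alg ring_base HasDer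
  hasDer_base exists_ext int_of_ring)

/-- The components of an element for the action of a cyclic group. -/
theorem exists_comp {p : ℕ} {K' K : Type} [Field K'] [Field K] [Algebra K' K] {D : K'} {s : K}
    (hq : IsKum p D s) (r : K) (P : K → Prop) (hP0 : P 0) (hPadd : ∀ x y, P x → P y → P (x + y))
    (hPζ : ∀ (ζ : K') (x : K), ζ ^ p = 1 → P x → P (algebraMap K' K ζ * x))
    (hPγ : ∀ (γ : K ≃ₐ[K'] K) (x : K), P x → P (γ x)) (hr : P r) :
    ∃ E : ℕ → K, (∀ i, P (E i)) ∧ (∀ i, ∃ c : K', E i = algebraMap K' K c * s ^ i) ∧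
      ∑ i ∈ Finset.range p, E i = p * r := by
  obtain ⟨ζ, hζ⟩ := hq.zeta
  obtain ⟨γ, hγ, hγ2⟩ := hq.exists_gen hζ
  have hp := hq.prime
  have hζ0 : ζ ≠ 0 := hζ.ne_zero hp.ne_zero
  have hζK : algebraMap K' K ζ ≠ 0 := (_root_.map_ne_zero _).2 hζ0
  haveI := hq.fin
  haveI := hq.galois
  have hγp : γ ^ p = 1 := by
    rw [← hq.card]
    exact pow_card_eq_one'
  refine ⟨fun i => ∑ j ∈ Finset.range p, algebraMap K' K (ζ⁻¹ ^ (i * j)) * (γ ^ j) r, ?_, ?_, ?_⟩
  · intro i
    refine Finset.sum_induction _ P hPadd hP0 fun j _ => ?_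
    refine hPζ _ _ ?_ (hPγ _ _ hr)
    rw [← pow_mul, mul_comm _ p, pow_mul, inv_pow, hζ.pow_eq_one, inv_one, one_pow]
  · intro i
    have h1 : γ (∑ j ∈ Finset.range p, algebraMap K' K (ζ⁻¹ ^ (i * j)) * (γ ^ j) r) =
        algebraMap K' K (ζ ^ i) *
          ∑ j ∈ Finset.range p, algebraMap K' K (ζ⁻¹ ^ (i * j)) * (γ ^ j) r := by
      rw [map_sum, Finset.mul_sum]
      have h3 : ∀ j, γ (algebraMap K' K (ζ⁻¹ ^ (i * j)) * (γ ^ j) r) =
          algebraMap K' K (ζ ^ i) *
            (algebraMap K' K (ζ⁻¹ ^ (i * (j + 1))) * (γ ^ (j + 1)) r) := by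
        intro j
        have h4 : γ ((γ ^ j) r) = (γ ^ (j + 1)) r := by
          rw [pow_succ']
          rfl
        have h5 : (ζ⁻¹ ^ (i * j) : K') = ζ ^ i * ζ⁻¹ ^ (i * (j + 1)) := by
          rw [mul_add, mul_one, pow_add, inv_pow, inv_pow]
          field_simp
        rw [map_mul, γ.commutes, h4, h5, map_mul]
        ring
      rw [Finset.sum_congr rfl fun j _ => h3 j, ← Finset.mul_sum, ← Finset.mul_sum]
      congr 1
      have h6 := Finset.sum_range_succ'
        (fun j => algebraMap K' K (ζ⁻¹ ^ (i * j)) * (γ ^ j) r) p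
      have h7 := Finset.sum_range_succ
        (fun j => algebraMap K' K (ζ⁻¹ ^ (i * j)) * (γ ^ j) r) p
      rw [h6] at h7
      have h8 : algebraMap K' K (ζ⁻¹ ^ (i * p)) * (γ ^ p) r =
          algebraMap K' K (ζ⁻¹ ^ (i * 0)) * (γ ^ 0) r := by
        rw [hγp, pow_zero, mul_zero, pow_zero, mul_comm i, pow_mul, inv_pow, hζ.pow_eq_one, inv_one,
          one_pow]
      rw [h8] at h7
      exact add_right_cancel h7
    have hfix : γ ((∑ j ∈ Finset.range p, algebraMap K' K (ζ⁻¹ ^ (i * j)) * (γ ^ j) r) / s ^ i) =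
        (∑ j ∈ Finset.range p, algebraMap K' K (ζ⁻¹ ^ (i * j)) * (γ ^ j) r) / s ^ i := by
      have hs := pow_ne_zero i hq.s_ne
      have hz := pow_ne_zero i hζK
      rw [map_div₀, h1, map_pow γ s i, hγ, mul_pow, map_pow (algebraMap K' K) ζ i]
      exact mul_div_mul_left _ _ hz
    obtain ⟨c, hc⟩ := hq.fixed hγ2 hfix
    refine ⟨c, ?_⟩
    rw [hc, div_mul_cancel₀ _ (pow_ne_zero i hq.s_ne)]
  · rw [Finset.sum_comm]
    have h1 : ∀ j ∈ Finset.range p, j ≠ 0 →
        ∑ i ∈ Finset.range p, algebraMap K' K (ζ⁻¹ ^ (i * j)) * (γ ^ j) r = 0 := by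
      intro j hj hj0
      rw [← Finset.sum_mul, ← map_sum]
      have h3 : ∑ i ∈ Finset.range p, ζ⁻¹ ^ (i * j) = 0 := by
        have h4 := geom_sum_mul (ζ⁻¹ ^ j) p
        have h5 : (ζ⁻¹ ^ j) ^ p = 1 := by
          rw [← pow_mul, mul_comm, pow_mul, inv_pow, hζ.pow_eq_one, inv_one, one_pow]
        rw [h5, sub_self] at h4
        have h6 : ζ⁻¹ ^ j - 1 ≠ 0 := by
          intro h7
          rw [sub_eq_zero, inv_pow, inv_eq_one] at h7
          have h8 := (hζ.pow_eq_one_iff_dvd j).1 h7
          exact hj0 (Nat.eq_zero_of_dvd_of_lt h8 (Finset.mem_range.1 hj))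
        have h7 := (mul_eq_zero.1 h4).resolve_right h6
        rw [← h7]
        refine Finset.sum_congr rfl fun i _ => ?_
        rw [← pow_mul, mul_comm]
      rw [h3, map_zero, zero_mul]
    rw [Finset.sum_eq_single 0 h1 (fun h => absurd (Finset.mem_range.2 hp.pos) h)]
    have h3 : ∀ i ∈ Finset.range p, algebraMap K' K (ζ⁻¹ ^ (i * 0)) * (γ ^ 0) r = r := by
      intro i _
      rw [mul_zero, pow_zero, map_one, one_mul, pow_zero]
      rfl
    rw [Finset.sum_congr rfl h3, Finset.sum_const, Finset.card_range, nsmul_eq_mul]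

section der

variable {k : Type} [Field k] {p : ℕ}

theorem val_p {A F : Type} [CommRing A] [IsDedekindDomain A] [Field F] [Algebra A F]
    [IsFractionRing A F] [Algebra k[X] A] (hpk : (p : k) ≠ 0) (v : HeightOneSpectrum A) :
    v.valuation F (p : F) = 1 := by
  have h3 : (p : F) = algebraMap A F (algebraMap k[X] A (C (p : k))) := by
    rw [show (C (p : k) : k[X]) = (p : k[X]) by rw [map_natCast], map_natCast, map_natCast]
  rw [h3, v.valuation_of_algebraMap, v.intValuation_eq_one_iff]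
  intro h4
  refine v.isPrime.ne_top (Ideal.eq_top_of_isUnit_mem _ h4 ?_)
  exact (isUnit_C.2 (IsUnit.mk0 _ hpk)).map _

theorem hasDer_step (H : Base p k) {K' K : Type} [Field K'] [Field K] [Algebra k[X] K']
    [Algebra k[X] K] [Algebra K' K] [IsScalarTower k[X] K' K] {D₀ : K'} {s : K} (hq : IsKum p D₀ s)
    (hfs' : FS k K') (ih : HasDer k K') : HasDer k K := by
  intro A _ _ _ _ _ _ _ v hunr
  have hp := H.prime
  have hfs : FS k K := hfs'.trans hq.fin hq.separable
  obtain ⟨A', a1, a2, a3, a4, a5⟩ := exists_ic (k := k) K'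
  obtain ⟨φ, hφ1, hφ2⟩ := exists_alg (k := k) (K' := K') (K := K) A' A
  letI : Algebra A' A := φ.toAlgebra
  haveI : IsScalarTower k[X] A' A := IsScalarTower.of_algebraMap_eq fun p => (hφ2 p).symm
  haveI := hfs.finite A
  haveI := hfs'.ded A'
  haveI := hfs'.frac A'
  haveI := hfs'.finite A'
  haveI : Module.Finite A' A := Module.Finite.of_restrictScalars_finite k[X] A' A
  haveI : Algebra.IsIntegral A' A := Algebra.IsIntegral.of_finite A' A
  haveI : Algebra.IsIntegral k[X] A' := Algebra.IsIntegral.of_finite k[X] A'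
  haveI : Module.IsTorsionFree A' A := by
    rw [Module.isTorsionFree_iff_algebraMap_injective]
    exact tf_of (K' := K') (K := K) (IsFractionRing.injective A' K') hφ1
  letI : Algebra A' K := ((algebraMap K' K).comp (algebraMap A' K')).toAlgebra
  haveI : IsScalarTower A' K' K := IsScalarTower.of_algebraMap_eq fun _ => rfl
  haveI : IsScalarTower A' A K := IsScalarTower.of_algebraMap_eq fun a => (hφ1 a).symm
  set v' := v.under A' with hv'
  have hle : v'.asIdeal.map (algebraMap A' A) ≤ v.asIdeal := by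
    rw [Ideal.map_le_iff_le_comap]
    exact le_rfl
  have hunr' : ∀ b : k[X], Irreducible b → algebraMap k[X] A' b ∉ v'.asIdeal ^ 2 := by
    intro b hb hbv
    refine hunr b hb ?_
    rw [IsScalarTower.algebraMap_apply k[X] A' A]
    have h3 := Ideal.mem_map_of_mem (algebraMap A' A) hbv
    rw [Ideal.map_pow] at h3
    exact Ideal.pow_right_mono hle 2 h3
  have hev : IsPw p (v'.valuation K' D₀) := by
    by_contra hodd
    obtain ⟨b, -, hb, hbv⟩ := exists_irr (hfs'.injB A') v'
    refine hunr b hb ?_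
    rw [IsScalarTower.algebraMap_apply k[X] A' A]
    exact ram_of (K := K') (L := K) hq v hodd (Ideal.mem_map_of_mem _ hbv)
  obtain ⟨D', hD'1, hD'2⟩ := ih A' v' hunr'
  haveI := hq.fin
  haveI := hq.separable
  haveI : Algebra.FormallyEtale K' K := Algebra.FormallyEtale.of_isSeparable K' K
  obtain ⟨D, hD⟩ := exists_ext ((Algebra.linearMap K' K).compDer D')
  have hD1 : ∀ x : K', D (algebraMap K' K x) = algebraMap K' K (D' x) := fun x => by
    rw [hD]
    rfl
  refine ⟨D, fun p => ?_, int_of_ring v D fun r => ?_⟩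
  · rw [IsScalarTower.algebraMap_apply k[X] K' K, hD1, hD'1,
      ← IsScalarTower.algebraMap_apply k[X] K' K]
  -- a unit root
  obtain ⟨d, c, hc, hcd, hdv⟩ := unit_rep hp v' hq.ne_zero hev
  obtain ⟨s₁, hs₁⟩ : ∃ s₁ : K, s₁ = algebraMap K' K c * s := ⟨_, rfl⟩
  have hcK : algebraMap K' K c ≠ 0 := (_root_.map_ne_zero _).2 hc
  have hs₁0 : s₁ ≠ 0 := by
    rw [hs₁]
    exact mul_ne_zero hcK hq.s_ne
  have hs₁2 : s₁ ^ p = algebraMap K' K (algebraMap A' K' d) := by
    rw [hs₁, mul_pow, hq.pw, ← map_pow, ← map_mul, mul_comm, hcd]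
  have hval : ∀ x : K', v'.valuation K' x ≤ 1 → v.valuation K (algebraMap K' K x) ≤ 1 := by
    intro x hx
    rw [val_under (A := A'), ← hv']
    exact pow_le_one' hx _
  have hval' : ∀ x : K', v.valuation K (algebraMap K' K x) ≤ 1 → v'.valuation K' x ≤ 1 := by
    intro x hx
    rw [val_under (A := A'), ← hv'] at hx
    exact (pow_le_one_iff (ram_ne_zero v)).1 hx
  have hdK : v'.valuation K' (algebraMap A' K' d) = 1 := by
    rw [v'.valuation_of_algebraMap, hdv]
  have hs₁v : v.valuation K s₁ = 1 := by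
    have h1 : v.valuation K s₁ ^ p = 1 := by
      rw [← map_pow, hs₁2, val_under (A := A'), ← hv', hdK, one_pow]
    exact (pow_eq_one_iff.1 h1).resolve_right hp.ne_zero
  have hpA : v.valuation K (p : K) = 1 := val_p (A := A) H.ne v
  have hDs : v.valuation K (D s₁) ≤ 1 := by
    have h1 : (p : K) * s₁ ^ (p - 1) * D s₁ = algebraMap K' K (D' (algebraMap A' K' d)) := by
      rw [← hD1, ← hs₁2, Derivation.leibniz_pow, smul_eq_mul, nsmul_eq_mul]
      ring
    have h3 := congrArg (v.valuation K) h1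
    rw [map_mul, map_mul, map_pow, hpA, hs₁v, one_pow, one_mul, one_mul] at h3
    rw [h3]
    exact hval _ (hD'2 _ hdK.le)
  -- the components
  have hvint : ∀ x : K, IsIntegral k[X] x → v.valuation K x ≤ 1 := by
    intro x hx
    obtain ⟨y, rfl⟩ := (IsIntegralClosure.isIntegral_iff (A := A) (R := k[X])).1 hx
    exact v.valuation_le_one y
  have hint : IsIntegral k[X] (algebraMap A K r) :=
    (IsIntegralClosure.isIntegral k[X] K r).algebraMap
  have hζint : ∀ ζ : K', ζ ^ p = 1 → IsIntegral k[X] (algebraMap K' K ζ) := by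
    intro ζ hζ
    refine IsIntegral.of_pow (n := p) hp.pos ?_
    rw [← map_pow, hζ, map_one]
    exact isIntegral_one
  obtain ⟨E, hE1, hE2, hE3⟩ := exists_comp hq (algebraMap A K r) (IsIntegral k[X]) isIntegral_zero
    (fun x y hx hy => hx.add hy) (fun ζ x hζ hx => (hζint ζ hζ).mul hx)
    (fun γ x hx => by
      let γ' : K →ₐ[k[X]] K := { (γ : K →+* K) with
        commutes' := fun a => by
          show γ (algebraMap k[X] K a) = algebraMap k[X] K a
          rw [IsScalarTower.algebraMap_apply k[X] K' K, γ.commutes] }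
      exact hx.map γ') hint
  have hDE : ∀ i, v.valuation K (D (E i)) ≤ 1 := by
    intro i
    obtain ⟨a, ha⟩ := hE2 i
    have h1 : E i = algebraMap K' K (a / c ^ i) * s₁ ^ i := by
      rw [ha, hs₁, map_div₀, map_pow, mul_pow]
      field_simp
    have h3 : v'.valuation K' (a / c ^ i) ≤ 1 := by
      refine hval' _ ?_
      have h4 := hvint _ (hE1 i)
      rw [h1, map_mul, map_pow, hs₁v, one_pow, mul_one] at h4
      exact h4
    rw [h1, Derivation.leibniz, hD1, smul_eq_mul, smul_eq_mul]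
    refine (Valuation.map_add _ _ _).trans (max_le ?_ ?_)
    · rw [Derivation.leibniz_pow, smul_eq_mul, nsmul_eq_mul, map_mul, map_mul, map_mul, map_pow, hs₁v,
        one_pow, one_mul]
      refine mul_le_one' (hval _ h3) (mul_le_one' ?_ hDs)
      have h6 : ((i : ℕ) : K) = algebraMap A K (i : A) := by rw [map_natCast]
      rw [h6]
      exact v.valuation_le_one _
    · rw [map_mul, map_pow, hs₁v, one_pow, one_mul]
      exact hval _ (hD'2 _ h3)
  have h5 : (p : K) * D (algebraMap A K r) = ∑ i ∈ Finset.range p, D (E i) := by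
    rw [← map_sum, hE3, ← nsmul_eq_mul, ← nsmul_eq_mul, map_nsmul]
  have h6 := congrArg (v.valuation K) h5
  rw [map_mul, hpA, one_mul] at h6
  rw [h6]
  exact Valuation.map_sum_le _ fun i _ => hDE i

theorem IsTower.hasDer (H : Base p k) {K : Type} [Field K] [Algebra k[X] K] {m : ℕ} {s : ℕ → K}
    (h : IsTower p k K m s) : HasDer k K := by
  refine IsTower.ind H (M := fun K _ _ => HasDer k K) (fun K _ _ hK => hasDer_base hK) ?_ m K s h
  intro K' K _ _ _ _ _ _ D s hq _ htw ih
  obtain ⟨m', s', htw⟩ := htw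
  exact hasDer_step H hq (htw.fs H) ih

end der

end Pool.Agent.H89.KT
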