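import Pool.Agent.H89.KT.Val

/-!
# Norms of elements with valuations divisible by `p`
-/

set_option autoImplicit false
set_option linter.all false

open Polynomial IsDedekindDomain WithZero
open scoped Classical

namespace Pool.Agent.H89.KT

open Pool.Agent.Y160.SE (IsPw)

section ideal

variable {R : Type} [CommRing R] [IsDedekindDomain R]

theorem ideal_pw {p : ℕ} (hp : p ≠ 0) {r : R} (hr : r ≠ 0)
    (hev : ∀ v : HeightOneSpectrum R, IsPw p (v.intValuation r)) :
    ∃ J : Ideal R, Ideal.span {r} = J ^ p := by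
  have hI : Ideal.span {r} ≠ 0 := fun h => hr (Ideal.span_singleton_eq_bot.1 h)
  have h1 := Ideal.finprod_heightOneSpectrum_factorization hI
  have h2 := Ideal.hasFiniteMulSupport hI
  have hcnt : ∀ v : HeightOneSpectrum R, ∃ m : ℕ,
      (Associates.mk v.asIdeal).count (Associates.mk (Ideal.span {r} : Ideal R)).factors = m * p := by
    intro v
    obtain ⟨δ, hδ⟩ := hev v
    rw [v.intValuation_if_neg hr] at hδ
    have hδ0 : δ ≠ 0 := by
      rintro rfl
      rw [zero_pow hp] at hδ
      exact exp_ne_zero hδ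
    obtain ⟨m, hm⟩ : ∃ m : ℤ, δ = exp m := ⟨_, (exp_log hδ0).symm⟩
    rw [hm, ← exp_nsmul] at hδ
    have h3 := exp_injective hδ
    rw [nsmul_eq_mul] at h3
    refine ⟨m.natAbs, ?_⟩
    have h4 := congrArg Int.natAbs h3
    rw [Int.natAbs_neg, Int.natAbs_natCast, Int.natAbs_mul, Int.natAbs_natCast] at h4
    rw [h4, mul_comm]
  choose m hm using hcnt
  refine ⟨∏ᶠ v : HeightOneSpectrum R, v.asIdeal ^ m v, ?_⟩
  have h3 : ∀ v : HeightOneSpectrum R, v.maxPowDividing (Ideal.span {r}) = (v.asIdeal ^ m v) ^ p := by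
    intro v
    rw [← pow_mul, ← hm]
    rfl
  rw [finprod_pow]
  · conv_lhs => rw [← h1]
    exact finprod_congr h3
  · refine Set.Finite.subset h2 fun v hv => ?_
    rw [Function.mem_mulSupport] at hv ⊢
    intro h4
    apply hv
    rw [h3] at h4
    exact (pow_eq_one_iff.1 h4).resolve_right hp

theorem int_pw {p : ℕ} (hp : p ≠ 0) {J : Ideal R} {r : R} (hr : r ≠ 0)
    (h : Ideal.span {r} = J ^ p) (v : HeightOneSpectrum R) : IsPw p (v.intValuation r) := by
  have hJ : J ≠ 0 := by
    rintro rfl
    rw [zero_pow hp] at h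
    exact hr (Ideal.span_singleton_eq_bot.1 h)
  refine ⟨exp (-((Associates.mk v.asIdeal).count (Associates.mk J).factors : ℤ)), ?_⟩
  rw [v.intValuation_if_neg hr, h, Associates.mk_pow, Associates.count_pow
    (Associates.mk_ne_zero.2 hJ) v.associates_irreducible, ← exp_nsmul]
  congr 1
  rw [nsmul_eq_mul]
  push_cast
  ring

end ideal

/-- The norm of an element with valuations divisible by `p`. -/
theorem norm_pw {p : ℕ} (hp : p ≠ 0) {A R K L : Type} [CommRing A] [IsDedekindDomain A] [CommRing R]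
    [IsDedekindDomain R] [Algebra A R] [Module.Finite A R] [Module.IsTorsionFree A R] [Field K]
    [Algebra A K] [IsFractionRing A K] [Field L] [Algebra R L] [IsFractionRing R L] [Algebra K L]
    [FiniteDimensional K L]
    [Algebra A L] [IsScalarTower A K L] [IsScalarTower A R L] {w : L} (hw : w ≠ 0)
    (hev : ∀ P : HeightOneSpectrum R, IsPw p (P.valuation L w)) (v : HeightOneSpectrum A) :
    IsPw p (v.valuation K (Algebra.norm K w)) := by
  obtain ⟨a, b, hb, rfl⟩ := IsFractionRing.div_surjective (A := R) w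
  have hb0 : b ≠ 0 := nonZeroDivisors.ne_zero hb
  have ha0 : a ≠ 0 := by
    rintro rfl
    rw [map_zero, zero_div] at hw
    exact hw rfl
  have hbL : algebraMap R L b ≠ 0 := fun h => hb0 (IsFractionRing.injective R L (by rw [h, map_zero]))
  obtain ⟨q, hq⟩ : ∃ q, p = q + 1 := Nat.exists_eq_succ_of_ne_zero hp
  have hr0 : a * b ^ q ≠ 0 := mul_ne_zero ha0 (pow_ne_zero _ hb0)
  have he : algebraMap R L (a * b ^ q) =
      algebraMap R L a / algebraMap R L b * algebraMap R L b ^ p := by
    rw [map_mul, map_pow, hq, pow_succ]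
    field_simp
  have hev' : ∀ P : HeightOneSpectrum R, IsPw p (P.intValuation (a * b ^ q)) := by
    intro P
    rw [← P.valuation_of_algebraMap (K := L)]
    show IsPw p (P.valuation L (algebraMap R L (a * b ^ q)))
    rw [he, map_mul, map_pow]
    exact (hev P).mul (IsPw.self _)
  obtain ⟨J, hJ⟩ := ideal_pw hp hr0 hev'
  haveI : IsIntegralClosure R A L := IsIntegralClosure.of_isIntegrallyClosed _ _ _
  have h1 : Ideal.span {Algebra.intNorm A R (a * b ^ q)} = (Ideal.relNorm A J) ^ p := by
    rw [← Ideal.relNorm_singleton, hJ, map_pow]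
  have h3 : algebraMap A K (Algebra.intNorm A R (a * b ^ q)) =
      Algebra.norm K (algebraMap R L (a * b ^ q)) := Algebra.algebraMap_intNorm (a * b ^ q)
  have hn0 : Algebra.intNorm A R (a * b ^ q) ≠ 0 := by
    intro h0
    rw [h0, map_zero] at h3
    have h4 := (Algebra.norm_eq_zero_iff).1 h3.symm
    exact hr0 (IsFractionRing.injective R L (by rw [h4, map_zero]))
  have h4 := int_pw hp hn0 h1 v
  rw [← v.valuation_of_algebraMap (K := K)] at h4
  have h5 : IsPw p (v.valuation K (algebraMap A K (Algebra.intNorm A R (a * b ^ q)))) := h4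
  rw [h3, he, map_mul, map_pow, map_mul, map_pow] at h5
  refine IsPw.of_mul (δ := v.valuation K (Algebra.norm K (algebraMap R L b))) ?_ h5
  rw [Valuation.ne_zero_iff]
  exact (Algebra.norm_ne_zero_iff).2 hbL

end Pool.Agent.H89.KT
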