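import Pool.Graph.R_pool_sql_team_seeded_3997aac3.Q45.TT.Main

/-!
# Kummer extensions of prime degree
-/

set_option autoImplicit false
set_option linter.all false

open Polynomial
open scoped Classical

namespace Pool.Agent.H89.KT

/-- The field `K` is the extension of `K'` of the prime degree `p` generated by a `p`-th root `s` of
`D`. -/
structure IsKum {K' K : Type} [Field K'] [Field K] [Algebra K' K] (p : ℕ) (D : K') (s : K) : Prop where
  prime : p.Prime
  ne : (p : K') ≠ 0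
  zeta : ∃ ζ : K', IsPrimitiveRoot ζ p
  pw : s ^ p = algebraMap K' K D
  nmem : ∀ x : K', algebraMap K' K x ≠ s
  top : IntermediateField.adjoin K' {s} = ⊤

section kum

variable {K K' : Type} [Field K'] [Field K] [Algebra K' K] {p : ℕ} {D : K'} {s : K}

theorem IsKum.not_pw (h : IsKum p D s) (b : K') : b ^ p ≠ D := by
  intro hb
  haveI : NeZero p := ⟨h.prime.ne_zero⟩
  obtain ⟨ζ, hζ⟩ := h.zeta
  by_cases hb0 : b = 0
  · have h1 : s ^ p = 0 := by
      rw [h.pw, ← hb, hb0, zero_pow h.prime.ne_zero, map_zero]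
    exact h.nmem 0 (by rw [map_zero, (pow_eq_zero_iff h.prime.ne_zero).1 h1])
  · have hb' : algebraMap K' K b ≠ 0 := (_root_.map_ne_zero _).2 hb0
    have h1 : (s / algebraMap K' K b) ^ p = 1 := by
      rw [div_pow, h.pw, ← hb, map_pow, div_self (pow_ne_zero _ hb')]
    obtain ⟨i, -, hi⟩ := (hζ.map_of_injective (algebraMap K' K).injective).eq_pow_of_pow_eq_one h1
    refine h.nmem (ζ ^ i * b) ?_
    rw [map_mul, map_pow, hi, div_mul_cancel₀ _ hb']

theorem IsKum.ne_zero (h : IsKum p D s) : D ≠ 0 := fun h0 =>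
  h.not_pw 0 (by rw [h0, zero_pow h.prime.ne_zero])

theorem IsKum.s_ne (h : IsKum p D s) : s ≠ 0 := fun h0 => h.nmem 0 (by rw [h0, map_zero])

theorem IsKum.irr (h : IsKum p D s) : Irreducible (X ^ p - C D : K'[X]) :=
  X_pow_sub_C_irreducible_of_prime h.prime h.not_pw

theorem IsKum.mon (h : IsKum p D s) : (X ^ p - C D : K'[X]).Monic :=
  monic_X_pow_sub_C _ h.prime.ne_zero

theorem IsKum.root (h : IsKum p D s) : aeval s (X ^ p - C D : K'[X]) = 0 := by
  rw [map_sub, map_pow, aeval_X, aeval_C, h.pw, sub_self]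

theorem IsKum.sep (h : IsKum p D s) : (X ^ p - C D : K'[X]).Separable :=
  separable_X_pow_sub_C D h.ne h.ne_zero

theorem IsKum.fin (h : IsKum p D s) : FiniteDimensional K' K :=
  Pool.Agent.Q45.TW.fin_of h.mon h.root h.top

theorem IsKum.separable (h : IsKum p D s) : Algebra.IsSeparable K' K :=
  Pool.Agent.Q45.TW.sep_of h.sep h.root h.top

theorem IsKum.finrank (h : IsKum p D s) : Module.finrank K' K = p := by
  rw [Pool.Agent.Q45.TW.finrank_of h.irr h.mon h.root h.top, natDegree_X_pow_sub_C]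

theorem IsKum.neK (h : IsKum p D s) : (p : K) ≠ 0 := by
  have h3 : (p : K) = algebraMap K' K p := by rw [map_natCast]
  rw [h3]
  exact (_root_.map_ne_zero _).2 h.ne

theorem IsKum.split (h : IsKum p D s) : IsSplittingField K' K (X ^ p - C D : K'[X]) := by
  haveI := h.fin
  obtain ⟨ζ, hζ⟩ := h.zeta
  have h1 := isSplittingField_X_pow_sub_C_of_root_adjoin_eq_top (K := K') (L := K) (a := D) (α := s)
  rw [h.finrank] at h1
  exact h1 ⟨ζ, (mem_primitiveRoots h.prime.pos).2 hζ⟩ h.pw h.top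

theorem IsKum.galois (h : IsKum p D s) : IsGalois K' K := by
  haveI := h.split
  exact IsGalois.of_separable_splitting_field h.sep

theorem IsKum.card (h : IsKum p D s) : Nat.card (K ≃ₐ[K'] K) = p := by
  haveI := h.fin
  haveI := h.galois
  rw [IsGalois.card_aut_eq_finrank, h.finrank]

/-- A generator of the Galois group. -/
theorem IsKum.exists_gen (h : IsKum p D s) {ζ : K'} (hζ : IsPrimitiveRoot ζ p) :
    ∃ g : K ≃ₐ[K'] K, g s = algebraMap K' K ζ * s ∧ ∀ x, x ∈ Subgroup.zpowers g := by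
  haveI := h.fin
  haveI := h.galois
  haveI := h.split
  haveI : NeZero p := ⟨h.prime.ne_zero⟩
  haveI : Fact p.Prime := ⟨h.prime⟩
  have h1 := autEquivZmod_symm_apply_natCast h.irr K h.pw hζ 1
  set g := (autEquivZmod h.irr K hζ).symm (Multiplicative.ofAdd ((1 : ℕ) : ZMod p)) with hg
  rw [pow_one, Algebra.smul_def] at h1
  refine ⟨g, h1, fun x => mem_zpowers_of_prime_card h.card ?_⟩
  intro h3
  rw [h3, AlgEquiv.one_apply] at h1
  have h4 : algebraMap K' K ζ = 1 := by
    have h5 : (algebraMap K' K ζ - 1) * s = 0 := by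
      rw [sub_mul, one_mul, ← h1, sub_self]
    exact sub_eq_zero.1 ((mul_eq_zero.1 h5).resolve_right h.s_ne)
  have h5 : ζ = 1 := (algebraMap K' K).injective (by rw [h4, map_one])
  rw [h5] at hζ
  exact h.prime.one_lt.ne' (hζ.unique IsPrimitiveRoot.one)

/-- The elements fixed by the generator are in the base. -/
theorem IsKum.fixed (h : IsKum p D s) {g : K ≃ₐ[K'] K} (hg : ∀ x, x ∈ Subgroup.zpowers g) {x : K}
    (hx : g x = x) : ∃ y : K', algebraMap K' K y = x := by
  haveI := h.fin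
  haveI := h.galois
  have h1 : x ∈ Set.range (algebraMap K' K) := by
    rw [IsGalois.mem_range_algebraMap_iff_fixed]
    intro f
    obtain ⟨n, rfl⟩ := hg f
    have h3 : g ∈ MulAction.stabilizer (K ≃ₐ[K'] K) x := hx
    exact (zpow_mem h3 n : g ^ n ∈ MulAction.stabilizer (K ≃ₐ[K'] K) x)
  exact h1

theorem IsKum.rep (h : IsKum p D s) (x : K) : ∃ P : K'[X], x = aeval s P :=
  Pool.Agent.Q45.TW.exists_aeval h.mon h.root h.top x

/-- Roots of unity. -/
theorem root_of {F : Type} [Field F] {p : ℕ} (hp : p.Prime) {ζ x y : F} (hζ : IsPrimitiveRoot ζ p)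
    (hy : y ≠ 0) (h : x ^ p = y ^ p) : ∃ i : ℕ, x = ζ ^ i * y := by
  haveI : NeZero p := ⟨hp.ne_zero⟩
  have h1 : (x / y) ^ p = 1 := by
    rw [div_pow, h, div_self (pow_ne_zero _ hy)]
  obtain ⟨i, -, hi⟩ := hζ.eq_pow_of_pow_eq_one h1
  exact ⟨i, by rw [hi, div_mul_cancel₀ _ hy]⟩

/-- `p`-th powers of `K` which are in `K'`. -/
theorem IsKum.pw_base (h : IsKum p D s) {ν : K'} {κ : K} (hν : ν ≠ 0)
    (hκ : κ ^ p = algebraMap K' K ν) :
    ∃ (c : K') (j : ℕ), c ≠ 0 ∧ ν = c ^ p * D ^ j := by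
  obtain ⟨ζ, hζ⟩ := h.zeta
  obtain ⟨g, hgs, hg⟩ := h.exists_gen hζ
  have hκ0 : κ ≠ 0 := by
    rintro rfl
    rw [zero_pow h.prime.ne_zero] at hκ
    exact hν ((_root_.map_eq_zero _).1 hκ.symm)
  have h1 : (g κ) ^ p = κ ^ p := by rw [← map_pow, hκ, g.commutes]
  obtain ⟨j, hj⟩ := root_of h.prime (hζ.map_of_injective (algebraMap K' K).injective) hκ0 h1
  have hfix : g (κ / s ^ j) = κ / s ^ j := by
    have hs := h.s_ne
    have hz : algebraMap K' K ζ ≠ 0 := (_root_.map_ne_zero _).2 (hζ.ne_zero h.prime.ne_zero)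
    rw [map_div₀, map_pow, hgs, hj, mul_pow]
    field_simp
  obtain ⟨c, hc⟩ := h.fixed hg hfix
  have hκc : κ = algebraMap K' K c * s ^ j := by
    rw [hc, div_mul_cancel₀ _ (pow_ne_zero _ h.s_ne)]
  refine ⟨c, j, ?_, ?_⟩
  · rintro rfl
    rw [map_zero, zero_mul] at hκc
    exact hκ0 hκc
  · apply (algebraMap K' K).injective
    rw [← hκ, hκc, map_mul, map_pow, map_pow, ← h.pw]
    ring

/-- Hilbert's theorem 90: an element of norm one. -/
theorem IsKum.hilbert (h : IsKum p D s) {g : K ≃ₐ[K'] K} (hg : ∀ x, x ∈ Subgroup.zpowers g) {w : K}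
    (hw : Algebra.norm K' w = 1) : ∃ v : K, v ≠ 0 ∧ g v = w * v := by
  haveI := h.fin
  haveI := h.galois
  haveI : IsCyclic (K ≃ₐ[K'] K) := ⟨g, hg⟩
  obtain ⟨y, hy⟩ := groupCohomology.exists_div_of_norm_eq_one (g := g) hg hw
  have hy0 : (y : K) ≠ 0 := y.ne_zero
  have hgy : g (y : K) ≠ 0 := (_root_.map_ne_zero g).2 hy0
  refine ⟨(y : K)⁻¹, inv_ne_zero hy0, ?_⟩
  rw [map_inv₀, ← hy]
  field_simp

end kum

end Pool.Agent.H89.KT
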