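import Pool.Agent.H89.KT.Tow

/-!
# Residue degrees in towers of Kummer extensions
-/

set_option autoImplicit false
set_option linter.all false

open Polynomial IsDedekindDomain WithZero
open scoped Classical

namespace Pool.Agent.H89.KT

open Pool.Agent.Q45.TW (cst ff ff_monic ff_natDegree ff_map)
open Pool.Agent.Y160.SE (IsPw)
open Pool.Agent.Q45.TT (FS inertia_le exists_ic exists_alg exists_above tf_of inert_of dvd_inertia)

/-- In a Galois extension of prime degree the residue degrees are `1` or the degree. -/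
theorem inertia_prime {A B K L : Type} [CommRing A] [IsDedekindDomain A] [CommRing B]
    [IsDedekindDomain B] [Algebra A B] [Module.IsTorsionFree A B] [Module.Finite A B]
    [Field K] [Field L] [Algebra A K] [Algebra B L] [IsFractionRing A K] [IsFractionRing B L]
    [Algebra K L] [Algebra A L] [IsScalarTower A K L] [IsScalarTower A B L]
    [FiniteDimensional K L] [IsGalois K L] {p : ℕ} (hp : p.Prime) (hfr : Module.finrank K L = p)
    (w : HeightOneSpectrum B) :
    w.asIdeal.inertiaDeg A = 1 ∨ w.asIdeal.inertiaDeg A = p := by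
  haveI : Algebra.IsIntegral A B := Algebra.IsIntegral.of_finite A B
  haveI : IsIntegralClosure B A L := IsIntegralClosure.of_isIntegrallyClosed _ _ _
  letI : MulSemiringAction (L ≃ₐ[K] L) B := IsIntegralClosure.MulSemiringAction A K L B
  haveI : IsGaloisGroup (L ≃ₐ[K] L) A B := IsGaloisGroup.of_isFractionRing _ _ _ K L
  set v := w.under A with hv
  haveI : v.asIdeal.IsMaximal := v.isMaximal
  haveI hlo : w.asIdeal.LiesOver v.asIdeal := ⟨rfl⟩
  haveI := w.isPrime
  haveI := v.isPrime
  have h1 := Ideal.ncard_primesOver_mul_ramificationIdxIn_mul_inertiaDegIn v.asIdeal B (L ≃ₐ[K] L)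
  rw [Ideal.inertiaDegIn_eq_inertiaDeg v.asIdeal w.asIdeal (L ≃ₐ[K] L), IsGalois.card_aut_eq_finrank,
    hfr] at h1
  refine (Nat.dvd_prime hp).1 ⟨(v.asIdeal.primesOver B).ncard * v.asIdeal.ramificationIdxIn B, ?_⟩
  refine h1.symm.trans ?_
  ring

section pow

variable {k : Type} [Field k] {p : ℕ}

/-- The residue degrees are powers of `p`. -/
theorem IsTower.pow (H : Base p k) {K : Type} [Field K] [Algebra k[X] K] {m : ℕ} {s : ℕ → K}
    (h : IsTower p k K m s) : ∀ (A : Type) [CommRing A] [Algebra k[X] A] [Algebra A K]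
    [IsScalarTower k[X] A K] [IsIntegralClosure A k[X] K] (v : HeightOneSpectrum A),
    ∃ j : ℕ, v.asIdeal.inertiaDeg k[X] = p ^ j := by
  refine IsTower.ind H (M := fun K _ _ => ∀ (A : Type) [CommRing A] [Algebra k[X] A] [Algebra A K]
    [IsScalarTower k[X] A K] [IsIntegralClosure A k[X] K] (v : HeightOneSpectrum A),
    ∃ j : ℕ, v.asIdeal.inertiaDeg k[X] = p ^ j) ?_ ?_ m K s h
  · intro K _ _ hK A _ _ _ _ _ v
    have hfs : FS k K := FS.base hK
    haveI := hfs.ded A
    haveI := hfs.frac A
    haveI := hfs.finite A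
    haveI : Module.IsTorsionFree k[X] A := by
      rw [Module.isTorsionFree_iff_algebraMap_injective]
      exact hfs.injB A
    haveI : Algebra.IsIntegral k[X] A := Algebra.IsIntegral.of_finite k[X] A
    obtain ⟨h1, h3⟩ := inertia_le (A := k[X]) (B := A) v
    have h4 : Module.finrank k[X] A = 1 := by
      rw [← IsFractionRing.finrank_eq k[X] K A K, Module.finrank_self]
    refine ⟨0, ?_⟩
    rw [h4] at h1
    rw [pow_zero]
    omega
  · intro K' K _ _ _ _ _ _ D s hq hinj htw ih A _ _ _ _ _ v
    obtain ⟨m', s', htw⟩ := htw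
    have hfs' : FS k K' := htw.fs H
    have hfs : FS k K := hfs'.trans hq.fin hq.separable
    obtain ⟨A', a1, a2, a3, a4, a5⟩ := exists_ic (k := k) K'
    obtain ⟨φ, hφ1, hφ2⟩ := exists_alg (k := k) (K' := K') (K := K) A' A
    letI : Algebra A' A := φ.toAlgebra
    haveI : IsScalarTower k[X] A' A := IsScalarTower.of_algebraMap_eq fun p => (hφ2 p).symm
    haveI := hfs.ded A
    haveI := hfs.frac A
    haveI := hfs.finite A
    haveI := hfs'.ded A'
    haveI := hfs'.frac A'
    haveI : Module.Finite A' A := Module.Finite.of_restrictScalars_finite k[X] A' A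
    haveI : Algebra.IsIntegral A' A := Algebra.IsIntegral.of_finite A' A
    haveI : Module.IsTorsionFree A' A := by
      rw [Module.isTorsionFree_iff_algebraMap_injective]
      exact tf_of (K' := K') (K := K) (IsFractionRing.injective A' K') hφ1
    haveI hlo : v.asIdeal.LiesOver (v.under A').asIdeal := ⟨rfl⟩
    letI : Algebra A' K := ((algebraMap K' K).comp (algebraMap A' K')).toAlgebra
    haveI : IsScalarTower A' K' K := IsScalarTower.of_algebraMap_eq fun _ => rfl
    haveI : IsScalarTower A' A K := IsScalarTower.of_algebraMap_eq fun a => (hφ1 a).symm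
    haveI := hq.fin
    haveI := hq.galois
    obtain ⟨j, hj⟩ := ih A' (v.under A')
    have h5 := Ideal.inertiaDeg_tower (R := k[X]) (v.under A').asIdeal v.asIdeal
    rw [h5, hj]
    rcases inertia_prime (A := A') (B := A) (K := K') (L := K) hq.prime hq.finrank v with h6 | h6
    · exact ⟨j, by rw [h6, mul_one]⟩
    · exact ⟨j + 1, by rw [h6, pow_succ]⟩

end pow

section inert

variable {k : Type} [Field k] {A' R' : Type} [CommRing A'] [IsDedekindDomain A'] [CommRing R']
  [IsDedekindDomain R'] [Algebra A' R'] [Algebra k[X] A'] [Algebra k[X] R']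
  [IsScalarTower k[X] A' R'] [Module.IsTorsionFree A' R'] [Module.Finite A' R']
  [Module.Finite k[X] R'] [Module.IsTorsionFree k[X] R']

theorem inert_q [Algebra.IsIntegral A' R'] (q : HeightOneSpectrum R') {b g : k[X]} {p : ℕ}
    (hb : Irreducible b) (hbq : algebraMap k[X] R' b ∈ q.asIdeal) (θ : R')
    (hθ : eval₂ (cst k R') θ g = -algebraMap k[X] R' X) (hirr : Irreducible (b.comp (-g)))
    (hg : Deg p g) (hn : Module.finrank A' R' = g.natDegree) {j : ℕ}
    (hj : (q.under A').asIdeal.inertiaDeg k[X] = p ^ j) :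
    (q.under A').asIdeal.map (algebraMap A' R') = q.asIdeal := by
  haveI hlo : q.asIdeal.LiesOver (q.under A').asIdeal := ⟨rfl⟩
  refine inert_of q ?_
  rw [hn]
  have h1 := dvd_inertia q hb hbq θ hθ hirr
  rw [Ideal.inertiaDeg_tower (R := k[X]) (q.under A').asIdeal q.asIdeal, hj] at h1
  exact (hg.cop.symm.pow_right j).dvd_of_dvd_mul_left h1

end inert

section up

variable {K' K L' L : Type} [Field K'] [Field K] [Field L'] [Field L] [Algebra K' K] [Algebra K' L']
  [Algebra K L] [Algebra L' L] [Algebra K' L] [IsScalarTower K' K L] [IsScalarTower K' L' L]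

/-- The Kummer extension generated by the same root. -/
theorem kum_up {p : ℕ} {D : K'} {s : K} (hq : IsKum p D s) {θ' : L'}
    (htop' : IntermediateField.adjoin K' {θ'} = ⊤)
    (htop : IntermediateField.adjoin K {algebraMap L' L θ'} = ⊤) {f : K'[X]} (hm : f.Monic)
    (hpos : 0 < f.natDegree) (hirr' : Irreducible f) (hirr : Irreducible (f.map (algebraMap K' K)))
    (hθ' : aeval θ' f = 0) : IsKum p (algebraMap K' L' D) (algebraMap K L s) := by
  -- subfields containing `L'` and `s`
  have key : ∀ S : Subfield L, (∀ x : L', algebraMap L' L x ∈ S) → algebraMap K L s ∈ S → S = ⊤ := by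
    intro S h1 h3
    have h4 : ∀ x : K, algebraMap K L x ∈ S := by
      intro x
      obtain ⟨P, rfl⟩ := hq.rep x
      have e1 : algebraMap K L (aeval s P) = eval₂ (algebraMap K' L) (algebraMap K L s) P := by
        rw [aeval_def, hom_eval₂, ← IsScalarTower.algebraMap_eq K' K L]
      rw [e1, eval₂_eq_sum]
      refine Subfield.sum_mem _ fun i _ => ?_
      have h6 : algebraMap K' L (P.coeff i) = algebraMap L' L (algebraMap K' L' (P.coeff i)) :=
        IsScalarTower.algebraMap_apply K' L' L _
      show algebraMap K' L (P.coeff i) * algebraMap K L s ^ i ∈ S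
      rw [h6]
      exact mul_mem (h1 _) (pow_mem h3 i)
    let T : IntermediateField K L := S.toIntermediateField h4
    have h5 : T = ⊤ := by
      rw [eq_top_iff, ← htop, IntermediateField.adjoin_simple_le_iff]
      exact h1 θ'
    rw [eq_top_iff]
    rintro x -
    have h6 : x ∈ T := by rw [h5]; trivial
    exact h6
  refine ⟨hq.prime, ?_, ?_, ?_, fun x hx => ?_, ?_⟩
  · have h3 : (p : L') = algebraMap K' L' p := by rw [map_natCast]
    rw [h3]
    exact (_root_.map_ne_zero _).2 hq.ne
  · obtain ⟨ζ, hζ⟩ := hq.zeta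
    exact ⟨_, hζ.map_of_injective (algebraMap K' L').injective⟩
  · rw [← map_pow, hq.pw, ← IsScalarTower.algebraMap_apply K' K L,
      ← IsScalarTower.algebraMap_apply K' L' L]
  · have h1 := key (algebraMap L' L).fieldRange (fun x => ⟨x, rfl⟩) ⟨x, hx⟩
    have hsurj : Function.Surjective (algebraMap L' L) := by
      intro y
      have h3 : y ∈ (algebraMap L' L).fieldRange := by rw [h1]; trivial
      exact h3
    let e : L' ≃ₗ[K'] L := LinearEquiv.ofBijective (IsScalarTower.toAlgHom K' L' L).toLinearMap
      ⟨(algebraMap L' L).injective, hsurj⟩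
    have h3 := e.finrank_eq
    have h4 : Module.finrank K' L' = f.natDegree := Pool.Agent.Q45.TW.finrank_of hirr' hm hθ' htop'
    have hθ : aeval (algebraMap L' L θ') (f.map (algebraMap K' K)) = 0 := by
      rw [aeval_map_algebraMap, aeval_algebraMap_apply, hθ', map_zero]
    have h5 : Module.finrank K L = f.natDegree := by
      rw [Pool.Agent.Q45.TW.finrank_of hirr (hm.map _) hθ htop, hm.natDegree_map]
    haveI := hq.fin
    rw [h4, ← Module.finrank_mul_finrank K' K L, hq.finrank, h5] at h3
    have h6 : p = 1 := by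
      have := Nat.eq_of_mul_eq_mul_right hpos ((one_mul _).trans h3)
      exact this.symm
    exact hq.prime.one_lt.ne' h6
  · have h1 := key (IntermediateField.adjoin L' {algebraMap K L s}).toSubfield
      (fun x => IntermediateField.algebraMap_mem _ x) (IntermediateField.mem_adjoin_simple_self L' _)
    rw [eq_top_iff]
    rintro x -
    have h3 : x ∈ (IntermediateField.adjoin L' {algebraMap K L s}).toSubfield := by rw [h1]; trivial
    exact h3

end up

end Pool.Agent.H89.KT
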