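import Pool.Agent.H89.KT.Evn

/-!
# Towers of Kummer extensions of the field `k(t)`
-/

set_option autoImplicit false
set_option linter.all false

open Polynomial IsDedekindDomain WithZero
open scoped Classical

namespace Pool.Agent.H89.KT

open Pool.Agent.Q45.TW (cst ff ff_monic ff_natDegree ff_map)
open Pool.Agent.Q45.TT (frac_of_gen mem_closure_sub FS inertia_le exists_ic exists_alg exists_above
  tf_of ff_alg irr_base sep_ff)

/-- The field `k` contains the `p`-th roots of unity, `p` a prime number different from its
characteristic. -/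
structure Base (p : ℕ) (k : Type) [Field k] : Prop where
  prime : p.Prime
  ne : (p : k) ≠ 0
  zeta : ∃ ζ : k, IsPrimitiveRoot ζ p

/-- The field `K` is generated over `k(t)` by successive `p`-th roots `s 0, …, s (m - 1)`. -/
structure IsTower (p : ℕ) (k : Type) [Field k] (K : Type) [Field K] [Algebra k[X] K] (m : ℕ)
    (s : ℕ → K) : Prop where
  inj : Function.Injective (algebraMap k[X] K)
  pw : ∀ i < m, s i ^ p ∈ Subfield.closure (Set.range (algebraMap k[X] K) ∪ s '' {j | j < i})
  gen : Subfield.closure (Set.range (algebraMap k[X] K) ∪ s '' {j | j < m}) = ⊤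

section tower

variable {k : Type} [Field k] {p : ℕ}

/-- The induction principle for towers of Kummer extensions. -/
theorem IsTower.ind (H : Base p k) {M : ∀ (K : Type) [Field K] [Algebra k[X] K], Prop}
    (base : ∀ (K : Type) [Field K] [Algebra k[X] K], IsFractionRing k[X] K → M K)
    (step : ∀ (K' K : Type) [Field K'] [Field K] [Algebra k[X] K'] [Algebra k[X] K] [Algebra K' K]
      [IsScalarTower k[X] K' K] (D : K') (s : K), IsKum p D s →
      Function.Injective (algebraMap k[X] K') → (∃ m s', IsTower p k K' m s') → M K' → M K) :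
    ∀ (m : ℕ) (K : Type) [Field K] [Algebra k[X] K] (s : ℕ → K), IsTower p k K m s → M K := by
  intro m
  induction m with
  | zero =>
    intro K _ _ s h
    refine base K (frac_of_gen h.inj ?_)
    have h1 := h.gen
    have h3 : s '' {j | j < 0} = ∅ := by simp
    rw [h3, Set.union_empty] at h1
    exact h1
  | succ m ih =>
    intro K _ _ s h
    set S := Subfield.closure (Set.range (algebraMap k[X] K) ∪ s '' {j | j < m}) with hS
    have hpS : ∀ p, algebraMap k[X] K p ∈ S := fun p => Subfield.subset_closure (Or.inl ⟨p, rfl⟩)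
    have hsS : ∀ j < m, s j ∈ S := fun j hj => Subfield.subset_closure (Or.inr ⟨j, hj, rfl⟩)
    by_cases hm : s m ∈ S
    · refine ih K s ⟨h.inj, fun i hi => h.pw i (by omega), ?_⟩
      rw [eq_top_iff, ← h.gen, Subfield.closure_le]
      rintro x (⟨p, rfl⟩ | ⟨j, hj, rfl⟩)
      · exact hpS p
      · rcases Nat.lt_succ_iff_lt_or_eq.1 hj with h3 | rfl
        · exact hsS j h3
        · exact hm
    · letI : Algebra k[X] S := ((algebraMap k[X] K).codRestrict S hpS).toAlgebra
      haveI : IsScalarTower k[X] S K := IsScalarTower.of_algebraMap_eq fun p => rfl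
      let s' : ℕ → S := fun j => if hj : s j ∈ S then ⟨s j, hj⟩ else 0
      have hs' : ∀ j < m, (s' j : K) = s j := by
        intro j hj
        show ((if hj : s j ∈ S then (⟨s j, hj⟩ : S) else 0 : S) : K) = s j
        rw [dif_pos (hsS j hj)]
      have himg : ∀ i ≤ m, S.subtype '' (Set.range (algebraMap k[X] S) ∪ s' '' {j | j < i}) =
          Set.range (algebraMap k[X] K) ∪ s '' {j | j < i} := by
        intro i hi
        rw [Set.image_union]
        congr 1
        · rw [← Set.range_comp]
          rfl
        · ext x
          constructor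
          · rintro ⟨_, ⟨j, hj, rfl⟩, rfl⟩
            exact ⟨j, hj, (hs' j (lt_of_lt_of_le hj hi)).symm⟩
          · rintro ⟨j, hj, rfl⟩
            exact ⟨s' j, ⟨j, hj, rfl⟩, hs' j (lt_of_lt_of_le hj hi)⟩
      have htw : IsTower p k S m s' := by
        refine ⟨fun p q hpq => h.inj (congrArg S.subtype hpq), fun i hi => ?_, ?_⟩
        · apply mem_closure_sub
          rw [himg i hi.le]
          show (s' i : K) ^ p ∈ _
          rw [hs' i hi]
          exact h.pw i (by omega)
        · rw [eq_top_iff]
          rintro x -
          apply mem_closure_sub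
          rw [himg m le_rfl]
          exact x.2
      have hD : s m ^ p ∈ S := h.pw m (by omega)
      have hiS : Function.Injective ((algebraMap k[X] S).comp (C : k →+* k[X])) :=
        htw.inj.comp C_injective
      have h2S : (p : S) ≠ 0 := by
        have h3 : (p : S) = (algebraMap k[X] S).comp (C : k →+* k[X]) (p : k) := by
          rw [map_natCast]
        rw [h3]
        intro h4
        exact H.ne (hiS (by rw [h4, map_zero]))
      have hζS : ∃ ζ : S, IsPrimitiveRoot ζ p := by
        obtain ⟨ζ, hζ⟩ := H.zeta
        exact ⟨_, hζ.map_of_injective hiS⟩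
      refine step S K ⟨s m ^ p, hD⟩ (s m) ⟨H.prime, h2S, hζS, rfl, fun x hx => hm ?_, ?_⟩ htw.inj
        ⟨m, s', htw⟩ (ih S s' htw)
      · rw [← hx]
        exact x.2
      · rw [eq_top_iff]
        rintro x -
        have h3 : (⊤ : Subfield K) ≤ (IntermediateField.adjoin S {s m}).toSubfield := by
          rw [← h.gen, Subfield.closure_le]
          rintro x (⟨p, rfl⟩ | ⟨j, hj, rfl⟩)
          · exact IntermediateField.algebraMap_mem _ (algebraMap k[X] S p)
          · rcases Nat.lt_succ_iff_lt_or_eq.1 hj with h3 | rfl
            · exact IntermediateField.algebraMap_mem _ (⟨s j, hsS j h3⟩ : S)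
            · exact IntermediateField.mem_adjoin_simple_self S _
        exact h3 (Subfield.mem_top x)

theorem IsTower.fs (H : Base p k) {K : Type} [Field K] [Algebra k[X] K] {m : ℕ} {s : ℕ → K}
    (h : IsTower p k K m s) : FS k K := by
  refine IsTower.ind H (M := fun K _ _ => FS k K) (fun K _ _ hK => FS.base hK) ?_ m K s h
  intro K' K _ _ _ _ _ _ D s hq _ _ ih
  exact ih.trans hq.fin hq.separable

/-- An irreducible polynomial stays irreducible in an extension of degree prime to its degree. -/
theorem irr_cop {K' K : Type} [Field K'] [Field K] [Algebra K' K] [FiniteDimensional K' K]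
    {f : K'[X]} (hm : f.Monic) (hpos : 0 < f.natDegree)
    (hcop : (Module.finrank K' K).Coprime f.natDegree)
    (hirr : Irreducible f) : Irreducible (f.map (algebraMap K' K)) := by
  have hne : f.map (algebraMap K' K) ≠ 0 := (hm.map _).ne_zero
  have hnu : ¬ IsUnit (f.map (algebraMap K' K)) := by
    intro h
    have h1 := natDegree_eq_zero_of_isUnit h
    rw [hm.natDegree_map] at h1
    omega
  obtain ⟨q, hq, hqd⟩ := WfDvdMonoid.exists_irreducible_factor hnu hne
  haveI : Fact (Irreducible q) := ⟨hq⟩
  have hq0 : q ≠ 0 := hq.ne_zero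
  haveI : FiniteDimensional K (AdjoinRoot q) := (AdjoinRoot.powerBasis hq0).finite
  haveI : FiniteDimensional K' (AdjoinRoot q) := Module.Finite.trans K (AdjoinRoot q)
  have h1 : Module.finrank K (AdjoinRoot q) = q.natDegree := by
    rw [(AdjoinRoot.powerBasis hq0).finrank, AdjoinRoot.powerBasis_dim]
  have h3 : Module.finrank K' (AdjoinRoot q) = Module.finrank K' K * q.natDegree := by
    rw [← Module.finrank_mul_finrank K' K (AdjoinRoot q), h1]
  set η : AdjoinRoot q := AdjoinRoot.root q with hη
  have hroot : aeval η f = 0 := by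
    obtain ⟨c, hc⟩ := hqd
    have h4 : aeval η (f.map (algebraMap K' K)) = 0 := by
      rw [hc, map_mul, AdjoinRoot.aeval_eq, AdjoinRoot.mk_self, zero_mul]
    rwa [aeval_map_algebraMap] at h4
  have hint : IsIntegral K' η := ⟨f, hm, hroot⟩
  have hmin : minpoly K' η = f := (minpoly.eq_of_irreducible_of_monic hirr hroot hm).symm
  have h4 := IntermediateField.adjoin.finrank hint
  rw [hmin] at h4
  have h5 : f.natDegree ∣ Module.finrank K' K * q.natDegree := by
    rw [← h3, ← h4]
    exact ⟨_, (Module.finrank_mul_finrank K' (IntermediateField.adjoin K' {η}) (AdjoinRoot q)).symm⟩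
  have h6 : f.natDegree ∣ q.natDegree := hcop.symm.dvd_of_dvd_mul_left h5
  have h7 : f.natDegree ≤ q.natDegree := Nat.le_of_dvd hq.natDegree_pos h6
  have h8 : Associated q (f.map (algebraMap K' K)) := by
    refine associated_of_dvd_of_natDegree_le hqd hne ?_
    rw [hm.natDegree_map]
    exact h7
  exact h8.irreducible hq

/-- The degree of `g` is positive and prime to `p`. -/
structure Deg (p : ℕ) (g : k[X]) : Prop where
  monic : g.Monic
  pos : 0 < g.natDegree
  cop : p.Coprime g.natDegree

theorem irr_step {g : k[X]} (hg : Deg p g) {K' K : Type} [Field K'] [Field K] [Algebra k[X] K']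
    [Algebra k[X] K] [Algebra K' K] [IsScalarTower k[X] K' K] {D : K'} {s : K} (hq : IsKum p D s)
    (h : Irreducible (ff g K')) : Irreducible (ff g K) := by
  haveI := hq.fin
  rw [← ff_alg (K' := K') (K := K)]
  refine irr_cop (ff_monic hg.monic hg.pos) (by rw [ff_natDegree hg.monic hg.pos]; exact hg.pos) ?_ h
  rw [hq.finrank, ff_natDegree hg.monic hg.pos]
  exact hg.cop

/-- The polynomial `g(x) + t` is irreducible over the tower. -/
theorem IsTower.irr (H : Base p k) {g : k[X]} (hg : Deg p g) {K : Type} [Field K]
    [Algebra k[X] K] {m : ℕ} {s : ℕ → K} (h : IsTower p k K m s) : Irreducible (ff g K) := by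
  refine IsTower.ind H (M := fun K _ _ => Irreducible (ff g K))
    (fun K _ _ hK => irr_base hg.monic hg.pos hK) ?_ m K s h
  intro K' K _ _ _ _ _ _ D s hq _ _ ih
  exact irr_step hg hq ih

end tower

end Pool.Agent.H89.KT
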