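import Pool.Agent.H89.KT.Kum

/-!
# Valuations in Kummer extensions and norms at inert primes
-/

set_option autoImplicit false
set_option linter.all false

open Polynomial IsDedekindDomain WithZero
open scoped Classical

namespace Pool.Agent.H89.KT

open Pool.Agent.Y160.SE (IsPw)
open Pool.Agent.Q45.TT (val_under ram_ne_zero mult_relNorm val_norm exists_above)

section ring

variable {A K B L : Type} [CommRing A] [IsDedekindDomain A] [Field K] [Algebra A K]
  [IsFractionRing A K] [CommRing B] [IsDedekindDomain B] [Field L] [Algebra B L] [IsFractionRing B L]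
  [Algebra K L] [Algebra A B] [Algebra A L] [IsScalarTower A K L] [IsScalarTower A B L]
  [Module.IsTorsionFree A B]

/-- A class modulo `p`-th powers with valuation divisible by `p` contains a unit at the place. -/
theorem unit_rep {p : ℕ} (hp : p.Prime) (v : HeightOneSpectrum A) {D : K} (hD : D ≠ 0)
    (hev : IsPw p (v.valuation K D)) :
    ∃ (d : A) (c : K), c ≠ 0 ∧ D * c ^ p = algebraMap A K d ∧ v.intValuation d = 1 := by
  obtain ⟨a, b, hb, rfl⟩ := IsFractionRing.div_surjective (A := A) D
  have hb0 : b ≠ 0 := nonZeroDivisors.ne_zero hb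
  have ha0 : a ≠ 0 := by
    rintro rfl
    rw [map_zero, zero_div] at hD
    exact hD rfl
  have hbK : algebraMap A K b ≠ 0 := fun h => hb0 (IsFractionRing.injective A K (by rw [h, map_zero]))
  have hab0 : a * b ^ (p - 1) ≠ 0 := mul_ne_zero ha0 (pow_ne_zero _ hb0)
  have hpp : p - 1 + 1 = p := Nat.sub_add_cancel hp.one_le
  have he : algebraMap A K (a * b ^ (p - 1)) =
      algebraMap A K a / algebraMap A K b * algebraMap A K b ^ p := by
    rw [map_mul, map_pow]
    conv_rhs => rw [← hpp, pow_succ]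
    field_simp
  -- the valuation
  obtain ⟨j, hj⟩ : ∃ j : ℕ, v.intValuation (a * b ^ (p - 1)) = exp (-((p * j : ℕ) : ℤ)) := by
    have h1 : IsPw p (v.valuation K (algebraMap A K (a * b ^ (p - 1)))) := by
      rw [he, map_mul, map_pow]
      exact hev.mul (IsPw.self _)
    rw [v.valuation_of_algebraMap] at h1
    obtain ⟨δ, hδ⟩ := h1
    have h3 : v.intValuation (a * b ^ (p - 1)) ≤ 1 := v.intValuation_le_one _
    have hδ0 : δ ≠ 0 := by
      rintro rfl
      rw [zero_pow hp.ne_zero] at hδ
      exact v.intValuation_ne_zero _ hab0 hδ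
    obtain ⟨m, hm⟩ : ∃ m : ℤ, δ = exp m := ⟨_, (exp_log hδ0).symm⟩
    rw [hδ, hm, ← exp_nsmul, ← exp_zero, exp_le_exp] at h3
    have hm0 : m ≤ 0 := by
      rw [nsmul_eq_mul] at h3
      by_contra hcon
      push Not at hcon
      have : (0 : ℤ) < (p : ℤ) * m := mul_pos (by exact_mod_cast hp.pos) hcon
      omega
    refine ⟨(-m).toNat, ?_⟩
    rw [hδ, hm, ← exp_nsmul]
    congr 1
    rw [nsmul_eq_mul]
    push_cast
    rw [Int.toNat_of_nonneg (by omega)]
    ring
  obtain ⟨π, hπ⟩ := v.intValuation_exists_uniformizer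
  have hπ0 : π ≠ 0 := by
    rintro rfl
    rw [map_zero] at hπ
    exact exp_ne_zero hπ.symm
  set τ := π ^ j with hτ
  have hτ0 : τ ≠ 0 := pow_ne_zero _ hπ0
  have hτv : v.intValuation τ = exp (-(j : ℤ)) := by
    rw [hτ, map_pow, hπ, ← exp_nsmul]
    congr 1
    simp
  have hτm : τ ∈ v.asIdeal ^ j := by
    rw [← v.intValuation_le_pow_iff_mem, hτv]
  obtain ⟨I, hI⟩ : v.asIdeal ^ j ∣ Ideal.span {τ} := by
    rw [Ideal.dvd_span_singleton]
    exact hτm
  -- an element of `I` outside `v`
  obtain ⟨ρ, hρI, hρv⟩ : ∃ ρ ∈ I, ρ ∉ v.asIdeal := by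
    by_contra hcon
    push Not at hcon
    have h1 : v.asIdeal ∣ I := Ideal.dvd_iff_le.2 hcon
    have h3 : v.asIdeal ^ (j + 1) ∣ Ideal.span {τ} := by
      rw [hI, pow_succ]
      exact mul_dvd_mul_left _ h1
    rw [Ideal.dvd_span_singleton, ← v.intValuation_le_pow_iff_mem, hτv, exp_le_exp] at h3
    push_cast at h3
    omega
  have hρv1 : v.intValuation ρ = 1 := (v.intValuation_eq_one_iff).2 hρv
  have hmem : a * b ^ (p - 1) * ρ ^ p ∈ Ideal.span {τ ^ p} := by
    have h1 : a * b ^ (p - 1) ∈ (v.asIdeal ^ j) ^ p := by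
      rw [← pow_mul, ← v.intValuation_le_pow_iff_mem, hj]
      rw [mul_comm]
    have h3 : a * b ^ (p - 1) * ρ ^ p ∈ (v.asIdeal ^ j) ^ p * I ^ p :=
      Ideal.mul_mem_mul h1 (Ideal.pow_mem_pow hρI p)
    rw [← mul_pow, ← hI, Ideal.span_singleton_pow] at h3
    exact h3
  obtain ⟨d, hd⟩ := Ideal.mem_span_singleton'.1 hmem
  have hτK : algebraMap A K τ ≠ 0 := fun h => hτ0 (IsFractionRing.injective A K (by rw [h, map_zero]))
  have hρ0 : ρ ≠ 0 := by
    rintro rfl
    exact hρv (v.asIdeal.zero_mem)
  have hρK : algebraMap A K ρ ≠ 0 := fun h => hρ0 (IsFractionRing.injective A K (by rw [h, map_zero]))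
  refine ⟨d, algebraMap A K b * algebraMap A K ρ / algebraMap A K τ,
    div_ne_zero (mul_ne_zero hbK hρK) hτK, ?_, ?_⟩
  · have h1 := congrArg (algebraMap A K) hd
    rw [map_mul, map_pow (algebraMap A K) τ p, map_mul, he, map_pow (algebraMap A K) ρ p] at h1
    have hτp : algebraMap A K τ ^ p ≠ 0 := pow_ne_zero _ hτK
    rw [div_pow, mul_pow, ← mul_div_assoc, div_eq_iff hτp, h1]
    ring
  · have h1 := congrArg v.intValuation hd
    rw [map_mul, map_mul, map_pow v.intValuation τ, map_pow v.intValuation ρ, hρv1, one_pow, mul_one,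
      hτv, hj] at h1
    have h3 : (exp (-(j : ℤ)) : WithZero (Multiplicative ℤ)) ^ p = exp (-((p * j : ℕ) : ℤ)) := by
      rw [← exp_nsmul]
      congr 1
      push_cast
      rw [nsmul_eq_mul]
      push_cast
      ring
    rw [h3] at h1
    exact mul_right_cancel₀ exp_ne_zero (h1.trans (one_mul _).symm)

/-- A Kummer extension by a root of an element of valuation divisible by `p` is unramified. -/
theorem ram_one [Module.Finite A B] {p : ℕ} {D : K} {s : L} (h : IsKum p D s)
    (h2 : IsUnit (p : A))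
    (w : HeightOneSpectrum B) (hev : IsPw p ((w.under A).valuation K D)) :
    (w.under A).asIdeal.ramificationIdx' w.asIdeal = 1 := by
  haveI : Algebra.IsIntegral A B := Algebra.IsIntegral.of_finite A B
  haveI := h.fin
  haveI := h.separable
  have hp := h.prime
  set v := w.under A with hv
  haveI hlo : w.asIdeal.LiesOver v.asIdeal := ⟨rfl⟩
  haveI : v.asIdeal.IsMaximal := v.isMaximal
  obtain ⟨d, c, hc, hcd, hdv⟩ := unit_rep hp v h.ne_zero hev
  have hsq : (algebraMap K L c * s) ^ p = algebraMap B L (algebraMap A B d) := by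
    rw [mul_pow, h.pw, ← map_pow, ← map_mul, mul_comm, hcd, ← IsScalarTower.algebraMap_apply A K L,
      ← IsScalarTower.algebraMap_apply A B L]
  obtain ⟨t, ht⟩ : ∃ t : B, algebraMap B L t = algebraMap K L c * s := by
    apply (IsIntegrallyClosed.isIntegral_iff (K := L)).1
    refine IsIntegral.of_pow (n := p) hp.pos ?_
    rw [hsq]
    exact isIntegral_algebraMap
  have ht2 : t ^ p = algebraMap A B d := by
    apply IsFractionRing.injective B L
    rw [map_pow, ht, hsq]
  have htw : t ∉ w.asIdeal := by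
    intro h1
    have h3 : algebraMap A B d ∈ w.asIdeal := by
      rw [← ht2]
      exact Ideal.pow_mem_of_mem _ h1 p hp.pos
    have h4 : d ∈ v.asIdeal := h3
    exact (v.intValuation_eq_one_iff).1 hdv h4
  have hmon : (X ^ p - C (algebraMap A K d) : K[X]).Monic := monic_X_pow_sub_C _ hp.ne_zero
  -- the minimal polynomial
  have hirr : Irreducible (X ^ p - C (algebraMap A K d) : K[X]) := by
    refine X_pow_sub_C_irreducible_of_prime hp fun b hb => ?_
    refine h.not_pw (b / c) ?_
    rw [div_pow, hb, ← hcd]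
    have := pow_ne_zero p hc
    field_simp
  have hroot : aeval (algebraMap B L t) (X ^ p - C (algebraMap A K d) : K[X]) = 0 := by
    rw [map_sub, map_pow, aeval_X, aeval_C, ht, hsq, ← IsScalarTower.algebraMap_apply A K L,
      ← IsScalarTower.algebraMap_apply A B L, sub_self]
  have hminK : minpoly K (algebraMap B L t) = X ^ p - C (algebraMap A K d) :=
    (minpoly.eq_of_irreducible_of_monic hirr hroot hmon).symm
  have hint : IsIntegral A t := Algebra.IsIntegral.isIntegral t
  have hmin : minpoly A t = X ^ p - C d := by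
    have h1 := minpoly.isIntegrallyClosed_eq_field_fractions K L hint
    rw [hminK] at h1
    apply map_injective (algebraMap A K) (IsFractionRing.injective A K)
    rw [← h1, Polynomial.map_sub, Polynomial.map_pow, map_X, map_C]
  have htop : Algebra.adjoin K {algebraMap B L t} = ⊤ := by
    have hi : IsIntegral K (algebraMap B L t) := ⟨_, hmon, hroot⟩
    have h3 := IntermediateField.adjoin_simple_toSubalgebra_of_isAlgebraic hi.isAlgebraic
    have h4 : IntermediateField.adjoin K {algebraMap B L t} = ⊤ := by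
      rw [eq_top_iff, ← h.top, IntermediateField.adjoin_simple_le_iff]
      have h5 : s = (algebraMap K L c)⁻¹ * algebraMap B L t := by
        rw [ht, inv_mul_cancel_left₀ ((_root_.map_ne_zero _).2 hc)]
      rw [h5, ← map_inv₀]
      exact mul_mem (IntermediateField.algebraMap_mem _ _) (IntermediateField.mem_adjoin_simple_self K _)
    rw [h4] at h3
    exact h3.symm
  have hmem := aeval_derivative_mem_differentIdeal A K L t htop
  have hder : derivative (X ^ p - C d : A[X]) = C (p : A) * X ^ (p - 1) := by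
    rw [derivative_sub, derivative_C, sub_zero, derivative_X_pow]
  rw [hmin, hder, map_mul, aeval_C, map_pow, aeval_X, map_natCast] at hmem
  by_contra hne
  have hle : v.asIdeal.map (algebraMap A B) ≤ w.asIdeal := by
    rw [Ideal.map_le_iff_le_comap]
    exact le_of_eq hlo.over
  have h3 := (Ideal.ramificationIdx'_ne_one_iff hle).1 hne
  have h4 : w.asIdeal ^ 2 ∣ v.asIdeal.map (algebraMap A B) := Ideal.dvd_iff_le.2 h3
  have h5 := pow_sub_one_dvd_differentIdeal_aux K L (A := A) (B := B) w.asIdeal (e := 2) (by norm_num)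
    v.ne_bot h4
  have h6 : (p : B) * t ^ (p - 1) ∈ w.asIdeal := by
    have h7 := Ideal.dvd_iff_le.1 h5 hmem
    norm_num at h7
    exact h7
  rcases w.isPrime.mem_or_mem h6 with h7 | h7
  · refine w.isPrime.ne_top (Ideal.eq_top_of_isUnit_mem _ h7 ?_)
    have h8 := h2.map (algebraMap A B)
    rwa [map_natCast] at h8
  · exact htw (w.isPrime.mem_of_pow_mem _ h7)

/-- If the valuation of `D` is not divisible by `p`, then the extension by a root is ramified. -/
theorem ram_of [Algebra.IsIntegral A B] {p : ℕ} {D : K} {s : L} (h : IsKum p D s)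
    (w : HeightOneSpectrum B) (hodd : ¬ IsPw p ((w.under A).valuation K D)) :
    (w.under A).asIdeal.map (algebraMap A B) ≤ w.asIdeal ^ 2 := by
  have hle : (w.under A).asIdeal.map (algebraMap A B) ≤ w.asIdeal := by
    rw [Ideal.map_le_iff_le_comap]
    exact le_rfl
  refine (Ideal.ramificationIdx'_ne_one_iff hle).1 fun he => hodd ?_
  have h1 := val_under (A := A) (L := L) w D
  rw [he, pow_one, ← h.pw, map_pow] at h1
  rw [← h1]
  exact IsPw.self _

/-- Descent of the divisibility of the valuation. -/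
theorem pw_down [Module.Finite A B] {p : ℕ} {D : K} {s : L} (h : IsKum p D s)
    (h2 : IsUnit (p : A))
    (v : HeightOneSpectrum A) (hev : IsPw p (v.valuation K D)) {x : K}
    (hx : ∀ w : HeightOneSpectrum B, IsPw p (w.valuation L (algebraMap K L x))) :
    IsPw p (v.valuation K x) := by
  haveI : Algebra.IsIntegral A B := Algebra.IsIntegral.of_finite A B
  obtain ⟨w, rfl⟩ := exists_above (B := B) v
  have h1 := hx w
  rwa [val_under (A := A), ram_one h h2 w hev, pow_one] at h1

end ring

/-- Divisibility of valuations: `γ ^ n` is a `p`-th power, `n` prime to `p`. -/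
theorem pw_of_pow {p n : ℕ} (hp : p ≠ 0) (hpn : p.Coprime n) {γ : WithZero (Multiplicative ℤ)}
    (hγ : γ ≠ 0) (h : IsPw p (γ ^ n)) : IsPw p γ := by
  obtain ⟨δ, hδ⟩ := h
  have hb := Nat.gcd_eq_gcd_ab p n
  rw [hpn] at hb
  refine ⟨γ ^ (Nat.gcdA p n) * δ ^ (Nat.gcdB p n), ?_⟩
  have hδ0 : δ ≠ 0 := by
    rintro rfl
    rw [zero_pow hp] at hδ
    exact pow_ne_zero _ hγ hδ
  calc γ = γ ^ ((p : ℤ) * Nat.gcdA p n + (n : ℤ) * Nat.gcdB p n) := by
        rw [← hb]; simp
    _ = (γ ^ (Nat.gcdA p n) * δ ^ (Nat.gcdB p n)) ^ p := by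
        rw [zpow_add₀ hγ, zpow_mul γ (n : ℤ), zpow_natCast γ n, hδ, mul_pow,
          ← zpow_natCast (γ ^ _) p, ← zpow_natCast (δ ^ _) p, ← zpow_mul, ← zpow_mul,
          ← zpow_natCast δ p, ← zpow_mul, mul_comm (p : ℤ), mul_comm (p : ℤ)]

section inert

variable {A B : Type} [CommRing A] [IsDedekindDomain A] [CommRing B] [IsDedekindDomain B]
  [Algebra A B] [Module.IsTorsionFree A B] [Module.Finite A B]

variable {K L : Type} [Field K] [Algebra A K] [IsFractionRing A K] [Field L] [Algebra B L]
  [IsFractionRing B L] [Algebra K L] [Algebra A L] [IsScalarTower A K L] [IsScalarTower A B L]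

/-- Elements whose norm is a `p`-th power have valuation divisible by `p` at inert primes of degree
prime to `p`. -/
theorem pw_inert {p : ℕ} (hp : p ≠ 0) (v : HeightOneSpectrum A) (w : HeightOneSpectrum B)
    (hvw : v.asIdeal.map (algebraMap A B) = w.asIdeal) [FiniteDimensional K L]
    (hcop : p.Coprime (Module.finrank K L)) {z : L} (hz : z ≠ 0) {m : K}
    (hm : Algebra.norm K z = m ^ p) :
    IsPw p (w.valuation L z) := by
  have h1 := val_norm (K := K) (L := L) v w hvw z
  rw [hm, map_pow] at h1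
  have hwz : w.valuation L z ≠ 0 := (Valuation.ne_zero_iff _).2 hz
  refine pw_of_pow hp hcop hwz ?_
  rw [← h1]
  exact IsPw.self _

end inert

end Pool.Agent.H89.KT
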